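import Pool.Agent.Work.MP_27623f_ag.SA.Defs

/-!
MODULE MaxP (size S-M).  Irreducible ideals.

PROOF.  By Krull there is `N` with `x ∉ 𝔠 + m^N` (`Ideal.isHausdorff_of_le_jacobson` or the Krull intersection theorem in
`R/𝔠`; for instance `Submodule`/`Ideal.iInf_pow_smul_eq_bot_of_isLocalRing` for the module `R/𝔠`).  Let `I` be maximal among the
ideals `≥ 𝔠 + m^N` not containing `x` (Noetherian: `set_has_maximal_iff_noetherian`).  If `a ∉ I` then `x ∈ I + (a)`, so
`b a - x ∈ I` for some `b`.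
-/

set_option autoImplicit false

namespace Pool.Agent.FSig.SA

theorem exists_pair_of_not_mem {R : Type*} [CommRing R] [IsNoetherianRing R] [IsLocalRing R]
    (c : Ideal R) (x : R) (hx : x ∉ c) : ∃ I : Ideal R, c ≤ I ∧ Pair R I x := by
  classical
  obtain ⟨N, hN⟩ : ∃ N : ℕ, x ∉ c ⊔ IsLocalRing.maximalIdeal R ^ N := by
    by_contra hcon
    push Not at hcon
    have h1 := Ideal.iInf_pow_smul_eq_bot_of_isLocalRing (M := R ⧸ c)
      (IsLocalRing.maximalIdeal R) (IsLocalRing.maximalIdeal.isMaximal R).ne_top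
    have h2 : (Ideal.Quotient.mk c x : R ⧸ c) ∈
        (⨅ i : ℕ, IsLocalRing.maximalIdeal R ^ i • (⊤ : Submodule R (R ⧸ c))) := by
      rw [Submodule.mem_iInf]
      intro i
      obtain ⟨y, hy, z, hz, hyz⟩ := Submodule.mem_sup.1 (hcon i)
      have h3 : (Ideal.Quotient.mk c x : R ⧸ c) = z • (1 : R ⧸ c) := by
        rw [← hyz, map_add, Ideal.Quotient.eq_zero_iff_mem.2 hy, zero_add]
        rw [Algebra.smul_def, mul_one]
        rfl
      rw [h3]
      exact Submodule.smul_mem_smul hz Submodule.mem_top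
    rw [h1, Submodule.mem_bot, Ideal.Quotient.eq_zero_iff_mem] at h2
    exact hx h2
  obtain ⟨I, ⟨hI1, hI2⟩, hI3⟩ := set_has_maximal_iff_noetherian.2
    (inferInstance : IsNoetherian R R)
    {J : Ideal R | c ⊔ IsLocalRing.maximalIdeal R ^ N ≤ J ∧ x ∉ J}
    ⟨c ⊔ IsLocalRing.maximalIdeal R ^ N, le_rfl, hN⟩
  refine ⟨I, le_sup_left.trans hI1, ⟨⟨N, le_sup_right.trans hI1⟩, hI2, ?_⟩⟩
  intro a ha
  have h4 : x ∈ I ⊔ Ideal.span {a} := by
    by_contra hcon
    have h5 := hI3 (I ⊔ Ideal.span {a}) ⟨hI1.trans le_sup_left, hcon⟩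
    apply h5
    refine lt_of_le_of_ne le_sup_left ?_
    intro h6
    apply ha
    rw [h6]
    exact Ideal.mem_sup_right (Ideal.mem_span_singleton_self a)
  obtain ⟨y, hy, z, hz, hyz⟩ := Submodule.mem_sup.1 h4
  obtain ⟨b, hb⟩ := Ideal.mem_span_singleton'.1 hz
  refine ⟨b, ?_⟩
  have h7 : b * a - x = -y := by
    rw [hb, ← hyz]
    ring
  rw [h7]
  exact I.neg_mem hy

end Pool.Agent.FSig.SA
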