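import Pool.Agent.Work.MP_27623f_ag.SA.Defs
import Pool.Agent.Work.MP_27623f_ag.SA.MaxP

/-!
MODULE Comb (size S-M).  Two irreducible ideals contain a common one (depth two).

PROOF.  Let `𝔠 = a I₂ + b I₁ + (a w₂ - b w₁)`.  Claim: `b w₁ ∉ 𝔠`.  Otherwise `b w₁ = a i₂ + b i₁ + ρ (a w₂ - b w₁)`, so
`b (w₁ - i₁ + ρ w₁) = a (i₂ + ρ w₂)`; by `hreg2` `(1 + ρ) w₁ - i₁ = a z ∈ I₁`, so `(1 + ρ) w₁ ∈ I₁` and `1 + ρ` is not a
unit; by `hreg1` `i₂ + ρ w₂ = b z ∈ I₂`, so `ρ w₂ ∈ I₂` and `ρ` is not a unit; a contradiction in the local ring `R`.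
Let `I ≥ 𝔠` with `Pair R I (b w₁)` (`exists_pair_of_not_mem`).  If `x ∉ I₁` then `t x - w₁ ∈ I₁`, `b t x ≡ b w₁ ∉ I`, so
`b x ∉ I`, in particular `x ∉ I`: `I ≤ I₁`.  If `x ∉ I₂` then `t x - w₂ ∈ I₂`, `a t x ≡ a w₂ ≡ b w₁ ∉ I`, so `x ∉ I`: `I ≤ I₂`.
-/

set_option autoImplicit false

namespace Pool.Agent.FSig.SA

theorem combine {R : Type*} [CommRing R] [IsNoetherianRing R] [IsLocalRing R] {I₁ I₂ : Ideal R}
    {w₁ w₂ a b : R} (h₁ : Pair R I₁ w₁) (h₂ : Pair R I₂ w₂) (ha : a ∈ I₁) (hb : b ∈ I₂)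
    (hreg1 : ∀ x, a * x = 0 → x = 0)
    (hreg2 : ∀ x, b * x ∈ Ideal.span {a} → x ∈ Ideal.span {a}) :
    ∃ I : Ideal R, Pair R I (b * w₁) ∧ (∀ x ∈ I₁, b * x ∈ I) ∧ I ≤ I₁ ∧ I ≤ I₂ := by
  set c : Ideal R := Ideal.span {a} * I₂ ⊔ (Ideal.span {b} * I₁ ⊔ Ideal.span {a * w₂ - b * w₁})
    with hc
  have key : b * w₁ ∉ c := by
    intro hmem
    obtain ⟨p, hp, q, hq, hpq⟩ := Submodule.mem_sup.1 hmem
    obtain ⟨r, hr, s, hs, hrs⟩ := Submodule.mem_sup.1 hq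
    obtain ⟨i₂, hi₂, hpi⟩ := Ideal.mem_span_singleton_mul.1 hp
    obtain ⟨i₁, hi₁, hri⟩ := Ideal.mem_span_singleton_mul.1 hr
    obtain ⟨ρ, hρ⟩ := Ideal.mem_span_singleton'.1 hs
    have e1 : b * ((1 + ρ) * w₁ - i₁) = a * (i₂ + ρ * w₂) := by
      have : b * w₁ = a * i₂ + (b * i₁ + ρ * (a * w₂ - b * w₁)) := by
        rw [hpi, hri, hρ, hrs, hpq]
      linear_combination this
    have e2 : (1 + ρ) * w₁ - i₁ ∈ Ideal.span {a} := by
      apply hreg2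
      rw [e1]
      exact Ideal.mem_span_singleton'.2 ⟨_, mul_comm _ _⟩
    obtain ⟨z, hz⟩ := Ideal.mem_span_singleton'.1 e2
    have e3 : (1 + ρ) * w₁ ∈ I₁ := by
      have : (1 + ρ) * w₁ = z * a + i₁ := by rw [hz]; ring
      rw [this]
      exact I₁.add_mem (I₁.mul_mem_left _ ha) hi₁
    have e4 : ¬ IsUnit (1 + ρ) := by
      intro hu
      apply h₁.nmem
      obtain ⟨v, hv⟩ := hu.exists_left_inv
      have : w₁ = v * ((1 + ρ) * w₁) := by rw [← mul_assoc, hv, one_mul]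
      rw [this]
      exact I₁.mul_mem_left _ e3
    have e5 : i₂ + ρ * w₂ - b * z = 0 := by
      apply hreg1
      rw [mul_sub, ← e1, ← hz]
      ring
    have e6 : ρ * w₂ ∈ I₂ := by
      have : ρ * w₂ = z * b - i₂ := by linear_combination e5
      rw [this]
      exact I₂.sub_mem (I₂.mul_mem_left _ hb) hi₂
    have e7 : ¬ IsUnit ρ := by
      intro hu
      apply h₂.nmem
      obtain ⟨v, hv⟩ := hu.exists_left_inv
      have : w₂ = v * (ρ * w₂) := by rw [← mul_assoc, hv, one_mul]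
      rw [this]
      exact I₂.mul_mem_left _ e6
    have e8 : ¬ IsUnit ((1 + ρ) - ρ) := by
      rw [← mem_nonunits_iff, ← IsLocalRing.mem_maximalIdeal] at e4 e7 ⊢
      exact Ideal.sub_mem _ e4 e7
    apply e8
    rw [add_sub_cancel_right]
    exact isUnit_one
  obtain ⟨I, hcI, hI⟩ := exists_pair_of_not_mem c (b * w₁) key
  have m1 : ∀ x ∈ I₁, b * x ∈ I := fun x hx => hcI (Ideal.mem_sup_right (Ideal.mem_sup_left
    (Ideal.mul_mem_mul (Ideal.mem_span_singleton_self b) hx)))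
  have m2 : ∀ x ∈ I₂, a * x ∈ I := fun x hx => hcI (Ideal.mem_sup_left
    (Ideal.mul_mem_mul (Ideal.mem_span_singleton_self a) hx))
  have m3 : a * w₂ - b * w₁ ∈ I := hcI (Ideal.mem_sup_right (Ideal.mem_sup_right
    (Ideal.mem_span_singleton_self _)))
  refine ⟨I, hI, m1, ?_, ?_⟩
  · intro x hx
    by_contra hn
    obtain ⟨t, ht⟩ := h₁.soc x hn
    apply hI.nmem
    have : b * w₁ = b * t * x - b * (t * x - w₁) := by ring
    rw [this]
    exact I.sub_mem (I.mul_mem_left _ hx) (m1 _ ht)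
  · intro x hx
    by_contra hn
    obtain ⟨t, ht⟩ := h₂.soc x hn
    apply hI.nmem
    have : b * w₁ = a * t * x - a * (t * x - w₂) - (a * w₂ - b * w₁) := by ring
    rw [this]
    exact I.sub_mem (I.sub_mem (I.mul_mem_left _ hx) (m2 _ ht)) m3

end Pool.Agent.FSig.SA
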