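import Pool.Agent.Work.MP_27623f_ag.SA.Defs
import Pool.Agent.Work.MP_27623f_ag.SA.MaxP
import Pool.Agent.Work.MP_27623f_ag.SA.Comb

/-!
MODULE Cof (size M).  Irreducible ideals are cofinal, with a multiplier.

PROOF.  Call `(I, h')` good if `Pair R I (h' * w₁)`, `h' I₁ ⊆ I`, `I ≤ I₁`; `(I₁, 1)` is good.  Suppose `(I, h')` is good and
`I ≰ m^N`.  Choose `x ∈ I`, `x ∉ m^N`, and `I_x ≥ m^N` with `Pair R I_x x` (`exists_pair_of_not_mem`).  `m^M ≤ I ⊓ I_x` for
some `M`; take `a, b ∈ m^M` from `hreg` and apply `combine` to `(I, h' w₁)`, `(I_x, x)`: get `I' ≤ I ⊓ I_x` with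
`Pair R I' (b * (h' * w₁))`, `b I ⊆ I'`, so `(I', b h')` is good.  Now `I' ⊔ m^N < I ⊔ m^N`, because `x` is in the second
one and not in the first one (`I' ⊔ m^N ≤ I_x`).  The ideals containing `m^N` satisfy the descending chain condition
(`R / m^N` is Artinian; or use the length of `R / (I ⊔ m^N)`, or well-foundedness of `<` on `Submodule R (R ⧸ m^N)`), so a
good pair for which `I ⊔ m^N` is minimal has `I ≤ m^N`.
-/

set_option autoImplicit false

namespace Pool.Agent.FSig.SA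

private theorem art_quot {R : Type*} [CommRing R] [IsNoetherianRing R] [IsLocalRing R] (N : ℕ)
    (htop : IsLocalRing.maximalIdeal R ^ N ≠ ⊤) :
    IsArtinianRing (R ⧸ IsLocalRing.maximalIdeal R ^ N) := by
  set I := IsLocalRing.maximalIdeal R ^ N with hI
  have hnt : Nontrivial (R ⧸ I) := Ideal.Quotient.nontrivial_iff.mpr htop
  have hloc : IsLocalRing (R ⧸ I) :=
    IsLocalRing.of_surjective' (Ideal.Quotient.mk I) Ideal.Quotient.mk_surjective
  have hmax : IsLocalRing.maximalIdeal (R ⧸ I) ≤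
      (IsLocalRing.maximalIdeal R).map (Ideal.Quotient.mk I) := by
    intro y hy
    obtain ⟨z, rfl⟩ := Ideal.Quotient.mk_surjective y
    apply Ideal.mem_map_of_mem
    rw [IsLocalRing.mem_maximalIdeal, mem_nonunits_iff] at hy ⊢
    exact fun hz => hy (hz.map _)
  have hnil : IsNilpotent (IsLocalRing.maximalIdeal (R ⧸ I)) := by
    refine ⟨N, ?_⟩
    rw [Ideal.zero_eq_bot, eq_bot_iff]
    refine (Ideal.pow_right_mono hmax N).trans ?_
    rw [← Ideal.map_pow, ← hI, Ideal.map_quotient_self]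
  exact (isArtinianRing_iff_isNilpotent_maximalIdeal (R ⧸ I)).mpr hnil

theorem cofinal_pair {R : Type*} [CommRing R] [IsNoetherianRing R] [IsLocalRing R]
    (hreg : ∀ M : ℕ, ∃ a ∈ IsLocalRing.maximalIdeal R ^ M, ∃ b ∈ IsLocalRing.maximalIdeal R ^ M,
      (∀ x, a * x = 0 → x = 0) ∧ ∀ x, b * x ∈ Ideal.span {a} → x ∈ Ideal.span {a})
    {I₁ : Ideal R} {w₁ : R} (h₁ : Pair R I₁ w₁) (N : ℕ) :
    ∃ (I : Ideal R) (h' : R), Pair R I (h' * w₁) ∧ (∀ x ∈ I₁, h' * x ∈ I) ∧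
      I ≤ IsLocalRing.maximalIdeal R ^ N := by
  classical
  by_cases htop : IsLocalRing.maximalIdeal R ^ N = ⊤
  · refine ⟨I₁, 1, by rwa [one_mul], fun x hx => by rwa [one_mul], ?_⟩
    rw [htop]
    exact le_top
  have hart := art_quot N htop
  set mN := IsLocalRing.maximalIdeal R ^ N with hmN
  let T : Set (Submodule (R ⧸ mN) (R ⧸ mN)) :=
    {L | ∃ (I : Ideal R) (h' : R), Pair R I (h' * w₁) ∧ (∀ x ∈ I₁, h' * x ∈ I) ∧
      L = I.map (Ideal.Quotient.mk mN)}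
  have hT : T.Nonempty := ⟨I₁.map (Ideal.Quotient.mk mN), I₁, 1, by rwa [one_mul],
    fun x hx => by rwa [one_mul], rfl⟩
  obtain ⟨L, ⟨I, h', hp, hI, rfl⟩, hmin⟩ := IsArtinian.set_has_minimal T hT
  refine ⟨I, h', hp, hI, ?_⟩
  by_contra hcon
  obtain ⟨x, hx, hxN⟩ := SetLike.not_le_iff_exists.mp hcon
  obtain ⟨Ix, hNx, hpx⟩ := exists_pair_of_not_mem mN x hxN
  obtain ⟨M₁, hM₁⟩ := hp.prim
  obtain ⟨M₂, hM₂⟩ := hpx.prim
  obtain ⟨a, ha, b, hb, hreg1, hreg2⟩ := hreg (max M₁ M₂)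
  have haI : a ∈ I := hM₁ (Ideal.pow_le_pow_right (le_max_left _ _) ha)
  have hbI : b ∈ Ix := hM₂ (Ideal.pow_le_pow_right (le_max_right _ _) hb)
  obtain ⟨I', hp', hbI', hI'I, hI'x⟩ := combine hp hpx haI hbI hreg1 hreg2
  refine hmin (I'.map (Ideal.Quotient.mk mN)) ⟨I', b * h', by rwa [mul_assoc], fun y hy => ?_,
    rfl⟩ ?_
  · rw [mul_assoc]
    exact hbI' _ (hI y hy)
  · refine lt_of_le_of_ne (Ideal.map_mono hI'I) fun he => ?_
    have h1 : Ideal.Quotient.mk mN x ∈ I'.map (Ideal.Quotient.mk mN) := by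
      rw [he]
      exact Ideal.mem_map_of_mem _ hx
    have h2 : x ∈ I' ⊔ mN := by
      have h3 : x ∈ (I'.map (Ideal.Quotient.mk mN)).comap (Ideal.Quotient.mk mN) := h1
      rwa [Ideal.comap_map_of_surjective _ Ideal.Quotient.mk_surjective, ← RingHom.ker_eq_comap_bot,
        Ideal.mk_ker] at h3
    exact hpx.nmem ((sup_le hI'x hNx) h2)

end Pool.Agent.FSig.SA
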