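import Mathlib

/-!
MODULE ARHom (size M, Mathlib only).  Linear forms modulo a small ideal are close to linear forms (Artin-Rees).

PROOF.  `f : R^a → D` onto (`Module.Finite.exists_fin'`), `k_1, ..., k_b` generators of its kernel,
`L : R^a → R^b`, `(L v)_l = ∑_i k_l(i) v_i`.  Artin-Rees (`Ideal.exists_pow_inf_eq_pow_smul`, for the submodule `range L` of
`R^b`): there is `c₀` with `m^(c + c₀) R^b ∩ range L ≤ m^c (range L)`.  `N = c + c₀`.  Given `I ≤ m^N` and `φ` choose
`v ∈ R^a` with `φ (f e_i) = v_i` in `R/I`.  As `f k_l = 0`, `(L v)_l ∈ I ≤ m^N`, so `L v ∈ m^N R^b` and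
`L v ∈ m^c (range L) = L (m^c R^a)`: there is `v'` with all coordinates in `m^c` and `L v' = L v`.  The linear form
`x ↦ ∑ x_i (v_i - v'_i)` on `R^a` kills the `k_l`, hence it factors through `ψ : D → R`.  For `x = f ξ`:
`φ x = ∑ ξ_i v_i = ψ x + ∑ ξ_i v'_i`, `∑ ξ_i v'_i ∈ m^c`.
See `exists_map_of_mod` in `Pool/Agent/Work/MP_27623f_ag/LiftMap.lean` for a similar proof.
-/

set_option autoImplicit false

namespace Pool.Agent.FSig.SA

private theorem mem_smul_top_of_coord' {R : Type*} [CommRing R] (I : Ideal R) {ι : Type*}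
    [Fintype ι] (w : ι → R) (hw : ∀ j, w j ∈ I) : w ∈ I • (⊤ : Submodule R (ι → R)) := by
  classical
  have : w = ∑ j, w j • (Pi.single j (1 : R) : ι → R) := by
    funext i
    simp [Finset.sum_apply, Pi.single_apply]
  rw [this]
  exact Submodule.sum_mem _ fun j _ => Submodule.smul_mem_smul (hw j) Submodule.mem_top

private theorem coord_of_mem_smul_top {R : Type*} [CommRing R] (I : Ideal R) {ι : Type*}
    (w : ι → R) (hw : w ∈ I • (⊤ : Submodule R (ι → R))) (i : ι) : w i ∈ I := by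
  induction hw using Submodule.smul_induction_on' with
  | smul r hr n _ =>
    rw [Pi.smul_apply, smul_eq_mul]
    exact I.mul_mem_right _ hr
  | add x _ y _ hx hy =>
    rw [Pi.add_apply]
    exact I.add_mem hx hy

theorem exists_hom_approx {R : Type*} [CommRing R] [IsNoetherianRing R] (m : Ideal R)
    (D : Type*) [AddCommGroup D] [Module R D] [Module.Finite R D] (c : ℕ) :
    ∃ N : ℕ, ∀ I : Ideal R, I ≤ m ^ N → ∀ φ : D →ₗ[R] R ⧸ I, ∃ ψ : D →ₗ[R] R,
      ∀ x : D, ∃ s ∈ m ^ c, φ x = Ideal.Quotient.mk I (ψ x + s) := by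
  classical
  obtain ⟨a, f, hf⟩ := Module.Finite.exists_fin' R D
  have hK : (LinearMap.ker f).FG := IsNoetherian.noetherian _
  obtain ⟨S, hS⟩ := hK
  -- the linear map `L`
  let L : (Fin a → R) →ₗ[R] (S → R) :=
    LinearMap.pi fun k => ∑ i, ((k : Fin a → R) i) • LinearMap.proj i
  have hLs : ∀ (v : Fin a → R) (k : S), L v k = ∑ i, (k : Fin a → R) i * v i := by
    intro v k
    simp [L]
  obtain ⟨c0, hc0⟩ := Ideal.exists_pow_inf_eq_pow_smul m (LinearMap.range L)
  refine ⟨c + c0, ?_⟩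
  intro I hI φ
  choose v hv using fun i : Fin a => Ideal.Quotient.mk_surjective (φ (f (Pi.single i 1)))
  have key : ∀ ξ : Fin a → R, Ideal.Quotient.mk I (∑ i, ξ i * v i) = φ (f ξ) := by
    intro ξ
    have hξ : ξ = ∑ i, ξ i • (Pi.single i (1 : R) : Fin a → R) := by
      funext i
      simp [Finset.sum_apply, Pi.single_apply]
    conv_rhs => rw [hξ]
    rw [map_sum, map_sum, map_sum]
    refine Finset.sum_congr rfl fun i _ => ?_
    rw [map_smul, map_smul, map_mul, hv]
    rfl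
  have hLv : L v ∈ (m ^ (c + c0)) • (⊤ : Submodule R (S → R)) := by
    apply mem_smul_top_of_coord'
    intro k
    apply hI
    rw [← Ideal.Quotient.eq_zero_iff_mem, hLs, key]
    have : (k : Fin a → R) ∈ LinearMap.ker f := by
      rw [← hS]
      exact Submodule.subset_span k.2
    rw [LinearMap.mem_ker.1 this, map_zero]
  have hLv2 : L v ∈ (m ^ c) • LinearMap.range L := by
    have h1 : L v ∈ (m ^ (c + c0)) • (⊤ : Submodule R (S → R)) ⊓ LinearMap.range L :=
      ⟨hLv, ⟨v, rfl⟩⟩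
    rw [hc0 (c + c0) (Nat.le_add_left _ _), Nat.add_sub_cancel] at h1
    exact Submodule.smul_mono le_rfl inf_le_right h1
  rw [LinearMap.range_eq_map, ← Submodule.map_smul''] at hLv2
  obtain ⟨v', hv', hLL⟩ := hLv2
  have hcoord := coord_of_mem_smul_top (m ^ c) v' hv'
  let ψ : (Fin a → R) →ₗ[R] R := ∑ i, (v i - v' i) • LinearMap.proj i
  have hψ : ∀ w : Fin a → R, ψ w = ∑ i, w i * (v i - v' i) := by
    intro w
    simp [ψ, mul_comm]
  have hker : LinearMap.ker f ≤ LinearMap.ker ψ := by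
    rw [← hS, Submodule.span_le]
    intro k hk
    show ψ k = 0
    have h1 := congrFun hLL ⟨k, hk⟩
    rw [hLs, hLs] at h1
    rw [hψ]
    simp only [mul_sub, Finset.sum_sub_distrib]
    rw [h1, sub_self]
  refine ⟨((LinearMap.ker f).liftQ ψ hker).comp
    (f.quotKerEquivOfSurjective hf).symm.toLinearMap, ?_⟩
  intro x
  obtain ⟨ξ, hξ⟩ := hf x
  refine ⟨∑ i, ξ i * v' i, ?_, ?_⟩
  · exact (m ^ c).sum_mem fun i _ => (m ^ c).mul_mem_left _ (hcoord i)
  · have hx : (f.quotKerEquivOfSurjective hf).symm x = (LinearMap.ker f).mkQ ξ := by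
      rw [LinearEquiv.symm_apply_eq]
      rw [← hξ]
      rfl
    rw [LinearMap.comp_apply]
    show φ x = Ideal.Quotient.mk I ((LinearMap.ker f).liftQ ψ hker
      ((f.quotKerEquivOfSurjective hf).symm x) + ∑ i, ξ i * v' i)
    rw [hx, Submodule.mkQ_apply, Submodule.liftQ_apply, hψ, ← Finset.sum_add_distrib, ← hξ, ← key]
    congr 1
    refine Finset.sum_congr rfl fun i _ => ?_
    ring

end Pool.Agent.FSig.SA
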