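import Mathlib

/-!
MODULE ARJ (size S-M, Mathlib only).  Artin-Rees for a fractional ideal.

PROOF.  `L : M → R`, `algebraMap (L x) = ι x` is an injective linear map; let `𝔧 = range L`, an ideal.  Artin-Rees
(`Ideal.exists_pow_inf_eq_pow_smul` for the submodule `𝔧` of `R`): there is `c₀` with
`m^(c + c₀) ∩ 𝔧 ≤ m^c 𝔧`.  `N = c + c₀`.  If `algebraMap r = ι x`, `r ∈ m^N`, then `r = L x ∈ m^c 𝔧`, so
`L x = ∑ s_i L x_i`, `s_i ∈ m^c`, and `x = ∑ s_i x_i ∈ m^c • M` (`Submodule.smul_induction_on` on the statement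
`∀ t ∈ m^c • 𝔧, ∃ y ∈ m^c • M, algebraMap t = ι y`).
-/

set_option autoImplicit false

namespace Pool.Agent.FSig.SA

theorem exists_deep {R K : Type*} [CommRing R] [IsNoetherianRing R] [Field K] [Algebra R K]
    [FaithfulSMul R K] (m : Ideal R) (M : Submodule R K) (ι : K) (h0 : ι ≠ 0)
    (hι : ∀ x ∈ M, ι * x ∈ (1 : Submodule R K)) (c : ℕ) :
    ∃ N : ℕ, ∀ x ∈ M, ∀ r ∈ m ^ N, algebraMap R K r = ι * x → x ∈ m ^ c • M := by
  obtain ⟨J, hJ⟩ : ∃ J : Submodule R R, ∀ t, t ∈ J ↔ ∃ x ∈ M, algebraMap R K t = ι * x := by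
    refine ⟨(M.map (LinearMap.mulLeft R ι)).comap (Algebra.linearMap R K), fun t => ?_⟩
    rw [Submodule.mem_comap, Submodule.mem_map]
    constructor
    · rintro ⟨x, hx, h⟩
      exact ⟨x, hx, h.symm⟩
    · rintro ⟨x, hx, h⟩
      exact ⟨x, hx, h.symm⟩
  obtain ⟨k, hk⟩ := Ideal.exists_pow_inf_eq_pow_smul m J
  refine ⟨c + k, fun x hx r hr hrx => ?_⟩
  have h1 : r ∈ m ^ (c + k) • (⊤ : Submodule R R) ⊓ J := by
    refine ⟨?_, (hJ r).2 ⟨x, hx, hrx⟩⟩
    have : r = r • (1 : R) := by simp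
    rw [this]
    exact Submodule.smul_mem_smul hr trivial
  rw [hk (c + k) (by omega), Nat.add_sub_cancel] at h1
  have h2 : r ∈ m ^ c • J := Submodule.smul_mono le_rfl inf_le_right h1
  have h3 : ∃ y ∈ m ^ c • M, algebraMap R K r = ι * y := by
    refine Submodule.smul_induction_on (p := fun t => ∃ y ∈ m ^ c • M, algebraMap R K t = ι * y)
      h2 ?_ ?_
    · intro s hs j hj
      obtain ⟨z, hz, hjz⟩ := (hJ j).1 hj
      refine ⟨s • z, Submodule.smul_mem_smul hs hz, ?_⟩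
      rw [smul_eq_mul, map_mul, hjz, Algebra.smul_def]
      ring
    · rintro a b ⟨y, hy, hay⟩ ⟨z, hz, hbz⟩
      refine ⟨y + z, Submodule.add_mem _ hy hz, ?_⟩
      rw [map_add, hay, hbz]
      ring
  obtain ⟨y, hy, hry⟩ := h3
  have h4 : x = y := mul_left_cancel₀ h0 (hrx.symm.trans hry)
  rw [h4]
  exact hy

end Pool.Agent.FSig.SA
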