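import Pool.Agent.Work.MP_27623f_ag.SA.Defs
import Pool.Agent.Work.MP_27623f_ag.SelfInj

/-!
MODULE Cogen (size S-M).  `R/I` is an injective cogenerator for modules over `R/I`.

PROOF.  `B = R/I` is an Artinian local ring in which every nonzero element divides `w̄ ≠ 0` (see the beginning of the proof of
`exists_map_quot` in `Pool/Agent/Work/MP_27623f_ag/MapMod.lean`), so `Module.Baer B B` (`baer`).  Let `x̄ ≠ 0` be the class of
`x` in the `B`-module `D / I D` and `𝔟 ⊂ B` its annihilator, a proper ideal; `m w̄ = 0` (if `t ∈ m` and `t w ∉ I` then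
`b t w - w ∈ I`, `1 - b t` a unit, `w ∈ I`), so `x̄ ↦ w̄` is a well defined map `B x̄ → B`; extend it by
`Module.Baer.extension_property` (or use the Baer property through `Module.Baer.injective`).
Compose with `D → D / I D`.
-/

set_option autoImplicit false

namespace Pool.Agent.FSig.SA

universe u

theorem exists_map_socle {R : Type u} [CommRing R] [IsNoetherianRing R] [IsLocalRing R]
    {I : Ideal R} {w : R} (h : Pair R I w) {D : Type u} [AddCommGroup D] [Module R D] (x : D)
    (hx : x ∉ I • (⊤ : Submodule R D)) :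
    ∃ φ : D →ₗ[R] R ⧸ I, φ x = Ideal.Quotient.mk I w := by
  have hw := h.nmem
  have hI1 : I ≠ ⊤ := fun h => hw (h ▸ Submodule.mem_top)
  have : Nontrivial (R ⧸ I) := Ideal.Quotient.nontrivial_iff.2 hI1
  have : IsLocalRing (R ⧸ I) :=
    IsLocalRing.of_surjective' (Ideal.Quotient.mk I) Ideal.Quotient.mk_surjective
  have : IsArtinianRing (R ⧸ I) := by
    obtain ⟨n, hn⟩ := h.prim
    rw [isArtinianRing_iff_isNilpotent_maximalIdeal]
    refine ⟨n, ?_⟩
    have h1 : IsLocalRing.maximalIdeal (R ⧸ I) ≤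
        (IsLocalRing.maximalIdeal R).map (Ideal.Quotient.mk I) := by
      intro y hy
      obtain ⟨a, rfl⟩ := Ideal.Quotient.mk_surjective y
      apply Ideal.mem_map_of_mem
      rw [IsLocalRing.mem_maximalIdeal, mem_nonunits_iff] at hy ⊢
      exact fun h => hy (h.map _)
    rw [Ideal.zero_eq_bot, eq_bot_iff]
    refine (Ideal.pow_right_mono h1 n).trans ?_
    rw [← Ideal.map_pow, Ideal.map_le_iff_le_comap]
    intro a ha
    rw [Ideal.mem_comap, Ideal.mem_bot, Ideal.Quotient.eq_zero_iff_mem]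
    exact hn ha
  have hw' : (Ideal.Quotient.mk I w) ≠ 0 := fun h => hw (Ideal.Quotient.eq_zero_iff_mem.1 h)
  have hs' : ∀ a : R ⧸ I, a ≠ 0 → ∃ b, b * a = Ideal.Quotient.mk I w := by
    intro a ha
    obtain ⟨a, rfl⟩ := Ideal.Quotient.mk_surjective a
    obtain ⟨b, hb⟩ := h.soc a (fun h => ha (Ideal.Quotient.eq_zero_iff_mem.2 h))
    refine ⟨Ideal.Quotient.mk I b, ?_⟩
    rw [← map_mul, ← sub_eq_zero, ← map_sub]
    exact Ideal.Quotient.eq_zero_iff_mem.2 hb
  -- the maximal ideal kills `w`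
  have hkill : ∀ t : R ⧸ I, ¬ IsUnit t → t * Ideal.Quotient.mk I w = 0 := by
    intro t ht
    by_contra hne
    obtain ⟨b, hb⟩ := hs' _ hne
    have h1 : (1 - b * t) * Ideal.Quotient.mk I w = 0 := by
      rw [sub_mul, one_mul, mul_assoc, hb, sub_self]
    have h2 : IsUnit (1 - b * t) := by
      by_contra h3
      have h4 := (IsLocalRing.mem_maximalIdeal _).2 h3
      have h4' := (IsLocalRing.mem_maximalIdeal _).2 ht
      have h5 := Ideal.add_mem _ h4 (Ideal.mul_mem_left _ b h4')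
      rw [sub_add_cancel] at h5
      exact (Ideal.ne_top_iff_one _).1 (IsLocalRing.maximalIdeal.isMaximal (R ⧸ I)).ne_top h5
    exact hw' ((IsUnit.mul_right_eq_zero h2).1 h1)
  let xb : D ⧸ (I • (⊤ : Submodule R D)) := Submodule.Quotient.mk x
  have hxb : xb ≠ 0 := by
    intro h0
    exact hx ((Submodule.Quotient.mk_eq_zero _).1 h0)
  let s : (R ⧸ I) →ₗ[R ⧸ I] (D ⧸ (I • (⊤ : Submodule R D))) :=
    LinearMap.toSpanSingleton (R ⧸ I) _ xb
  have hker : LinearMap.ker s ≤
      LinearMap.ker (LinearMap.toSpanSingleton (R ⧸ I) (R ⧸ I) (Ideal.Quotient.mk I w)) := by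
    intro b hb
    rw [LinearMap.mem_ker] at hb ⊢
    have hb' : b • xb = 0 := hb
    rw [LinearMap.toSpanSingleton_apply, smul_eq_mul]
    apply hkill
    intro hu
    exact hxb ((IsUnit.smul_eq_zero hu).1 hb')
  obtain ⟨ψ, hψ⟩ := (baer (Ideal.Quotient.mk I w) hw' hs').extension_property
    ((LinearMap.ker s).liftQ s le_rfl)
    (LinearMap.ker_eq_bot.1 (Submodule.ker_liftQ_eq_bot' _ _ rfl))
    ((LinearMap.ker s).liftQ
      (LinearMap.toSpanSingleton (R ⧸ I) (R ⧸ I) (Ideal.Quotient.mk I w)) hker)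
  refine ⟨(ψ.restrictScalars R) ∘ₗ (Submodule.mkQ _), ?_⟩
  have h1 := LinearMap.congr_fun hψ (Submodule.Quotient.mk (1 : R ⧸ I))
  rw [LinearMap.comp_apply, Submodule.liftQ_apply, Submodule.liftQ_apply] at h1
  have h2 : s 1 = xb := by
    show (1 : R ⧸ I) • xb = xb
    rw [one_smul]
  rw [h2, LinearMap.toSpanSingleton_apply, one_smul] at h1
  exact h1

end Pool.Agent.FSig.SA
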