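import Pool.Agent.Work.MP_27623f_ag.SA.Defs
import Pool.Agent.Work.MP_27623f_ag.Frob

/-!
MODULE Contr (size M).  Contraction of Frobenius powers from the localization at a maximal ideal.

PROOF.  `A = S_n`, `𝔮 = 𝔟 ∩ S`, `𝔟 = 𝔮 A` (`IsLocalization.map_comap`).  `frobPow 𝔟 q = (frobPow 𝔮 q) A`
(`frobPow_eq_map`, `Ideal.map_map`, commuting maps; `CharP A p`).  So there is `s ∉ n` with `s x ∈ frobPow 𝔮 q`
(`IsLocalization.mem_map_algebraMap_iff`).  `n^c ≤ 𝔮` (the image of `n` is in the maximal ideal of `A`), so `n` is contained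
in the radical of `frobPow 𝔮 q` and `n^M ≤ frobPow 𝔮 q` (`Ideal.exists_pow_le_of_le_radical_of_fg`; see
`exists_pow_le_frobPow`).  As `n` is maximal and `s ∉ n`, `1 = s t + z` with `z ∈ n^M` (`s` is a unit modulo `n^M`), so
`x = t (s x) + z x ∈ frobPow 𝔮 q`.
-/

set_option autoImplicit false

namespace Pool.Agent.FSig.SA

private theorem frobPow_localize {S : Type*} [CommRing S] (p e : ℕ) [Fact p.Prime]
    [CharP S p] (n : Ideal S) [n.IsPrime] [CharP (Localization.AtPrime n) p]
    (q : Ideal S) :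
    frobPow (q.map (algebraMap S (Localization.AtPrime n))) (p ^ e) =
      (frobPow q (p ^ e)).map (algebraMap S (Localization.AtPrime n)) := by
  haveI : ExpChar S p := ExpChar.prime Fact.out
  haveI : ExpChar (Localization.AtPrime n) p := ExpChar.prime Fact.out
  rw [frobPow_eq_map, frobPow_eq_map, Ideal.map_map, Ideal.map_map]
  congr 1
  ext x
  simp [iterateFrobenius_def]

theorem contract {S : Type*} [CommRing S] [IsNoetherianRing S] (p e : ℕ) [Fact p.Prime]
    [CharP S p] (n : Ideal S) [n.IsPrime] (hn : n.IsMaximal)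
    [CharP (Localization.AtPrime n) p] (b : Ideal (Localization.AtPrime n))
    (hb : ∃ c, IsLocalRing.maximalIdeal (Localization.AtPrime n) ^ c ≤ b) (x : S)
    (hx : algebraMap S (Localization.AtPrime n) x ∈ frobPow b (p ^ e)) :
    x ∈ frobPow (b.comap (algebraMap S (Localization.AtPrime n))) (p ^ e) := by
  obtain ⟨c, hc⟩ := hb
  have hmc : (b.comap (algebraMap S (Localization.AtPrime n))).map
      (algebraMap S (Localization.AtPrime n)) = b :=
    IsLocalization.map_comap n.primeCompl (Localization.AtPrime n) b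
  generalize hq : b.comap (algebraMap S (Localization.AtPrime n)) = q at hmc ⊢
  -- `n ^ c ≤ q`
  have hnc : n ^ c ≤ q := by
    rw [← hq]
    refine le_trans ?_ (Ideal.comap_mono hc)
    rw [← Ideal.map_le_iff_le_comap, Ideal.map_pow, Localization.AtPrime.map_eq_maximalIdeal]
  -- `s x` is in the Frobenius power
  obtain ⟨s, hs, hsx⟩ : ∃ s, s ∉ n ∧ s * x ∈ frobPow q (p ^ e) := by
    rw [← hmc, frobPow_localize, IsLocalization.mem_map_algebraMap_iff n.primeCompl] at hx
    obtain ⟨⟨z, s⟩, h⟩ := hx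
    rw [← map_mul] at h
    obtain ⟨c', hc'⟩ := (IsLocalization.eq_iff_exists n.primeCompl
      (Localization.AtPrime n)).1 h
    refine ⟨(c' : S) * (s : S), fun h' => ?_, ?_⟩
    · exact (c' * s).2 h'
    · have : (c' : S) * (s : S) * x = (c' : S) * (z : S) := by
        rw [← hc']
        ring
      rw [this]
      exact Ideal.mul_mem_left _ _ z.2
  -- a power of `n` is in the Frobenius power
  obtain ⟨M, hM⟩ : ∃ M, n ^ M ≤ frobPow q (p ^ e) := by
    refine Ideal.exists_pow_le_of_le_radical_of_fg (fun y hy => ?_) (IsNoetherian.noetherian n)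
    refine ⟨c * p ^ e, ?_⟩
    rw [pow_mul]
    exact pow_mem_frobPow _ (hnc (Ideal.pow_mem_pow hy c))
  have hcop : IsCoprime (Ideal.span {s}) (n ^ M) := by
    apply IsCoprime.pow_right
    rw [Ideal.isCoprime_iff_sup_eq]
    refine hn.1.2 _ (lt_of_le_of_ne le_sup_right fun h => hs ?_)
    rw [h]
    exact Ideal.mem_sup_left (Ideal.mem_span_singleton_self s)
  obtain ⟨u, hu, z, hz, huz⟩ := Ideal.isCoprime_iff_exists.1 hcop
  obtain ⟨t, rfl⟩ := Ideal.mem_span_singleton'.1 hu
  have h1 : x = t * (s * x) + x * z := by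
    linear_combination (-x) * huz
  rw [h1]
  exact Ideal.add_mem _ (Ideal.mul_mem_left _ _ hsx) (Ideal.mul_mem_left _ _ (hM hz))

end Pool.Agent.FSig.SA
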