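import Pool.Agent.Work.MP_27623f_ag.SA.Cogen

/-!
MODULE DA (size S).  Annihilators modulo an irreducible ideal.

PROOF.  `D = A / (𝔞 + 𝔟)`, `𝔟 D = 0`, so the class of `x` is not in `𝔟 • ⊤`; `φ : D → A/𝔟` with `φ x̄ = v`
(`exists_map_socle`); `c` a lift of `φ 1̄`.
-/

set_option autoImplicit false

namespace Pool.Agent.FSig.SA

universe u

theorem exists_mul_socle {A : Type u} [CommRing A] [IsNoetherianRing A] [IsLocalRing A]
    {b : Ideal A} {v : A} (h : Pair A b v) (a : Ideal A) (x : A) (hx : x ∉ a ⊔ b) :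
    ∃ c : A, (∀ y ∈ a, c * y ∈ b) ∧ c * x - v ∈ b := by
  have hbot : b • (⊤ : Submodule A (A ⧸ (a ⊔ b))) = ⊥ := by
    rw [eq_bot_iff, Submodule.smul_le]
    intro r hr m _
    obtain ⟨s, rfl⟩ := Ideal.Quotient.mk_surjective m
    rw [Submodule.mem_bot, Algebra.smul_def, Ideal.Quotient.algebraMap_eq, ← map_mul,
      Ideal.Quotient.eq_zero_iff_mem]
    exact Ideal.mul_mem_right _ _ (Ideal.mem_sup_right hr)
  have hnot : (Ideal.Quotient.mk (a ⊔ b) x) ∉ b • (⊤ : Submodule A (A ⧸ (a ⊔ b))) := by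
    rw [hbot, Submodule.mem_bot, Ideal.Quotient.eq_zero_iff_mem]
    exact hx
  obtain ⟨φ, hφ⟩ := exists_map_socle h (D := A ⧸ (a ⊔ b)) _ hnot
  obtain ⟨c, hc⟩ := Ideal.Quotient.mk_surjective (φ 1)
  have key : ∀ y : A, φ (Ideal.Quotient.mk (a ⊔ b) y) = Ideal.Quotient.mk b (c * y) := by
    intro y
    have e : (Ideal.Quotient.mk (a ⊔ b) y) = y • (1 : A ⧸ (a ⊔ b)) := by
      rw [Algebra.smul_def, Ideal.Quotient.algebraMap_eq, mul_one]
    rw [e, map_smul, ← hc, Algebra.smul_def, Ideal.Quotient.algebraMap_eq, ← map_mul, mul_comm]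
  refine ⟨c, fun y hy => ?_, ?_⟩
  · have h1 := key y
    rw [Ideal.Quotient.eq_zero_iff_mem.2 (Ideal.mem_sup_left hy : y ∈ a ⊔ b), map_zero] at h1
    exact Ideal.Quotient.eq_zero_iff_mem.1 h1.symm
  · have h1 := key x
    rw [hφ] at h1
    exact Ideal.Quotient.eq.1 h1.symm

end Pool.Agent.FSig.SA
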