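import Pool.Agent.Work.MP_27623f_ag.Defs

/-!
MP_27623f_ag / SA: symbolic algebras.  Definitions.

`R` is a Noetherian normal local domain, `K` its fraction field, `J` a nonzero finitely generated
`R`-submodule of `K`, `J^(n) = (J^n)**` with `M* = (R :_K M)`, and
`S = ∑_{n ≥ 0} J^(n) X^n`, a subalgebra of `K[X]`.
-/

set_option autoImplicit false

namespace Pool.Agent.FSig.SA

open Polynomial

/-- `I` is primary to the maximal ideal, `w ∉ I` and every `a ∉ I` has a multiple congruent to `w`
modulo `I`; in other words `I` is an irreducible ideal and `w` generates the socle of `A / I`. -/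
structure Pair (A : Type*) [CommRing A] [IsLocalRing A] (I : Ideal A) (w : A) : Prop where
  prim : ∃ n, IsLocalRing.maximalIdeal A ^ n ≤ I
  nmem : w ∉ I
  soc : ∀ a, a ∉ I → ∃ b, b * a - w ∈ I

/-- `y` is a regular sequence in every order. -/
def RegSeq {A : Type*} [CommRing A] {n : ℕ} (y : Fin n → A) : Prop :=
  ∀ (i : Fin n) (T : Finset (Fin n)), i ∉ T → ∀ s : A,
    y i * s ∈ Ideal.span (y '' T) → s ∈ Ideal.span (y '' T)

/-- A local ring with a regular sequence which generates an irreducible ideal primary to the
maximal ideal (for Noetherian local rings: Gorenstein). -/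
def Gorenstein (A : Type*) [CommRing A] [IsLocalRing A] : Prop :=
  ∃ (n : ℕ) (y : Fin n → A) (u : A), RegSeq y ∧ Pair A (Ideal.span (Set.range y)) u

section sym

variable {R K : Type*} [CommRing R] [Field K] [Algebra R K]

/-- `M* = (R :_K M)`. -/
def dual (M : Submodule R K) : Submodule R K where
  carrier := {x | ∀ y ∈ M, x * y ∈ (1 : Submodule R K)}
  add_mem' := fun {a b} ha hb y hy => by
    rw [add_mul]
    exact Submodule.add_mem _ (ha y hy) (hb y hy)
  zero_mem' := fun y _ => by
    rw [zero_mul]
    exact Submodule.zero_mem _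
  smul_mem' := fun c a ha y hy => by
    rw [smul_mul_assoc]
    exact Submodule.smul_mem _ c (ha y hy)

theorem mem_dual {M : Submodule R K} {x : K} :
    x ∈ dual M ↔ ∀ y ∈ M, x * y ∈ (1 : Submodule R K) := Iff.rfl

theorem le_dual_dual (M : Submodule R K) : M ≤ dual (dual M) := by
  intro x hx y hy
  rw [mul_comm]
  exact hy x hx

theorem dual_anti {M N : Submodule R K} (h : M ≤ N) : dual N ≤ dual M :=
  fun _ hx y hy => hx y (h hy)

theorem dual_dual_dual (M : Submodule R K) : dual (dual (dual M)) = dual M :=
  le_antisymm (dual_anti (le_dual_dual M)) (le_dual_dual _)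

theorem dual_one : dual (1 : Submodule R K) = 1 := by
  refine le_antisymm (fun x hx => ?_) (fun x hx y hy => ?_)
  · have := hx 1 (Submodule.one_le.1 le_rfl)
    rwa [mul_one] at this
  · have := Submodule.mul_mem_mul hx hy
    rwa [one_mul] at this

/-- `A** B** ⊆ (A B)**` -/
theorem dual_dual_mul {A B : Submodule R K} {x y : K} (hx : x ∈ dual (dual A))
    (hy : y ∈ dual (dual B)) : x * y ∈ dual (dual (A * B)) := by
  intro z hz
  have h1 : y * z ∈ dual A := by
    intro a ha
    have h2 : z * a ∈ dual B := by
      intro b hb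
      have h3 := hz (a * b) (Submodule.mul_mem_mul ha hb)
      rwa [← mul_assoc] at h3
    have h4 := hy (z * a) h2
    rwa [← mul_assoc] at h4
  have h5 := hx (y * z) h1
  rwa [← mul_assoc] at h5

variable (R K) in
/-- The properties of the family `n ↦ J^(n)`, `n` an integer, which are used. -/
structure DivSys (J : ℤ → Submodule R K) : Prop where
  zero : J 0 = 1
  mul : ∀ i j, ∀ x ∈ J i, ∀ y ∈ J j, x * y ∈ J (i + j)
  fg : ∀ n, (J n).FG
  ne : ∀ n, ∃ x ∈ J n, x ≠ 0
  dual : ∀ n, ∀ x : K, (∀ y ∈ J n, x * y ∈ (1 : Submodule R K)) → x ∈ J (-n)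

/-- The symbolic power `J^(n) = (J^n)**`. -/
def symPow (J : Submodule R K) (n : ℕ) : Submodule R K := dual (dual (J ^ n))

/-- `J^(n)` for all integers, `J^(-n) = (J^n)*`. -/
def symZ (J : Submodule R K) : ℤ → Submodule R K
  | Int.ofNat n => symPow J n
  | Int.negSucc n => dual (J ^ (n + 1))

theorem symPow_zero (J : Submodule R K) : symPow J 0 = 1 := by
  unfold symPow
  rw [pow_zero, dual_one, dual_one]

theorem symPow_mul (J : Submodule R K) {i j : ℕ} {x y : K} (hx : x ∈ symPow J i)
    (hy : y ∈ symPow J j) : x * y ∈ symPow J (i + j) := by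
  unfold symPow
  rw [pow_add]
  exact dual_dual_mul hx hy

/-- The symbolic algebra `∑_{n ≥ 0} J^(n) X^n`. -/
noncomputable def symAlg (J : Submodule R K) : Subalgebra R (Polynomial K) where
  carrier := {f | ∀ n, f.coeff n ∈ symPow J n}
  mul_mem' := fun {a b} ha hb n => by
    rw [Polynomial.coeff_mul]
    refine Submodule.sum_mem _ fun x hx => ?_
    rw [← Finset.HasAntidiagonal.mem_antidiagonal.1 hx]
    exact symPow_mul J (ha _) (hb _)
  add_mem' := fun {a b} ha hb n => by
    rw [Polynomial.coeff_add]
    exact Submodule.add_mem _ (ha n) (hb n)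
  algebraMap_mem' := fun r n => by
    rw [Polynomial.algebraMap_apply, Polynomial.coeff_C]
    split_ifs with h
    · rw [h, symPow_zero]
      exact Submodule.mem_one.2 ⟨r, rfl⟩
    · exact Submodule.zero_mem _

theorem mem_symAlg {J : Submodule R K} {f : Polynomial K} :
    f ∈ symAlg J ↔ ∀ n, f.coeff n ∈ symPow J n := Iff.rfl

theorem exists_const {J : Submodule R K} (f : symAlg J) :
    ∃ r : R, algebraMap R K r = (f : Polynomial K).coeff 0 := by
  have h := f.2 0
  rw [symPow_zero] at h
  exact Submodule.mem_one.1 h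

variable [FaithfulSMul R K]

/-- The constant term, a ring homomorphism `S → R`. -/
noncomputable def constTerm (J : Submodule R K) : symAlg J →+* R where
  toFun f := (exists_const f).choose
  map_one' := by
    apply FaithfulSMul.algebraMap_injective R K
    rw [(exists_const (1 : symAlg J)).choose_spec]
    simp
  map_mul' := fun f g => by
    apply FaithfulSMul.algebraMap_injective R K
    rw [map_mul, (exists_const _).choose_spec, (exists_const _).choose_spec,
      (exists_const _).choose_spec]
    simp
  map_zero' := by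
    apply FaithfulSMul.algebraMap_injective R K
    rw [(exists_const (0 : symAlg J)).choose_spec]
    simp
  map_add' := fun f g => by
    apply FaithfulSMul.algebraMap_injective R K
    rw [map_add, (exists_const _).choose_spec, (exists_const _).choose_spec,
      (exists_const _).choose_spec]
    simp

theorem algebraMap_constTerm {J : Submodule R K} (f : symAlg J) :
    algebraMap R K (constTerm J f) = (f : Polynomial K).coeff 0 := (exists_const f).choose_spec

/-- The ideal `m + ∑_{n > 0} J^(n) X^n` of the symbolic algebra. -/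
noncomputable def origin [IsLocalRing R] (J : Submodule R K) : Ideal (symAlg J) :=
  (IsLocalRing.maximalIdeal R).comap (constTerm J)

instance [IsLocalRing R] (J : Submodule R K) : (origin J).IsPrime :=
  Ideal.comap_isPrime _ _

end sym

/-- `∑_{j < B} h_j f_j` -/
noncomputable def lam {K : Type*} [Field K] (h : ℕ → K) (B : ℕ) (f : Polynomial K) : K :=
  ∑ j ∈ Finset.range B, h j * f.coeff j

/-- `∑_{j < B} h_j^q f_(q j)` -/
noncomputable def lamq {K : Type*} [Field K] (h : ℕ → K) (B q : ℕ) (f : Polynomial K) : K :=
  ∑ j ∈ Finset.range B, h j ^ q * f.coeff (q * j)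

/-- `e_n(g) = ∑_{n ≤ j < B} h_j g_(j - n)`, the component of degree `-n` of `h g`. -/
noncomputable def ecomp {K : Type*} [Field K] (h : ℕ → K) (B : ℕ) (g : Polynomial K) (n : ℕ) : K :=
  ∑ j ∈ (Finset.range B).filter (fun j => n ≤ j), h j * g.coeff (j - n)

end Pool.Agent.FSig.SA
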