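import Pool.Agent.Work.MP_27623f_ag.SA.Cogen
import Pool.Agent.Work.MP_27623f_ag.SA.ARHom

/-!
MODULE Elem (size S-M).  The key lemma.

PROOF.  `m^c ≤ I₁`; `N` from `exists_hom_approx` for `m`, `D`, `c`.  If `h' • e ∉ I D` there is `φ : D → R/I` with
`φ (h' • e) = w` (`exists_map_socle`), and `φ e = ψ e + s` in `R/I` with `ψ : D → R`, `s ∈ m^c ≤ I₁`; `ψ e + s ∈ I₁`, so
`φ (h' • e) = h' (ψ e + s) = 0` in `R/I` and `w ∈ I`, a contradiction.
-/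

set_option autoImplicit false

namespace Pool.Agent.FSig.SA

universe u

theorem elem {R : Type u} [CommRing R] [IsNoetherianRing R] [IsLocalRing R] {D : Type u}
    [AddCommGroup D] [Module R D] [Module.Finite R D] (I₁ : Ideal R)
    (h₁ : ∃ c, IsLocalRing.maximalIdeal R ^ c ≤ I₁) (e : D)
    (he : ∀ ψ : D →ₗ[R] R, ψ e ∈ I₁) :
    ∃ N : ℕ, ∀ (I : Ideal R) (w h' : R), Pair R I w → I ≤ IsLocalRing.maximalIdeal R ^ N →
      (∀ x ∈ I₁, h' * x ∈ I) → h' • e ∈ I • (⊤ : Submodule R D) := by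
  obtain ⟨c, hc⟩ := h₁
  obtain ⟨N, hN⟩ := exists_hom_approx (IsLocalRing.maximalIdeal R) D c
  refine ⟨N, fun I w h' hp hI hx => ?_⟩
  by_contra hcon
  obtain ⟨φ, hφ⟩ := exists_map_socle hp (h' • e) hcon
  obtain ⟨ψ, hψ⟩ := hN I hI φ
  obtain ⟨s, hs, h1⟩ := hψ e
  apply hp.nmem
  have h2 : φ (h' • e) = Ideal.Quotient.mk I (h' * (ψ e + s)) := by
    rw [map_smul, h1, map_mul]
    rfl
  have h3 : h' * (ψ e + s) ∈ I := hx _ (Ideal.add_mem _ (he ψ) (hc hs))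
  rw [Ideal.Quotient.eq_zero_iff_mem.mpr h3, hφ] at h2
  exact Ideal.Quotient.eq_zero_iff_mem.mp h2

end Pool.Agent.FSig.SA
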