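import Mathlib

/-!
MODULE Syz (size S-M, Mathlib only).  Syzygies of the monomials of degree `B` in a regular sequence `a, b`.

PROOF.  Induction on `B`, all `g`.  `B = 0`: `g 0 = 0`.  Step `B + 1`: modulo `a` the relation gives `b^(B+1) g_0 ∈ (a)`, so
`g_0 = a g_0'` (apply `hb` `B + 1` times).  Divide by `a` (`ha`):
`b^(B+1) g_0' + ∑_{1 ≤ j ≤ B+1} a^(j-1) b^(B+1-j) g_j = 0`, i.e. `∑_{j ≤ B} a^j b^(B-j) g'_j = 0` with
`g'_0 = g_1 + b g_0'`, `g'_j = g_(j+1)` for `j ≥ 1`.  Induction.
-/

set_option autoImplicit false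

namespace Pool.Agent.FSig.SA

theorem syz {R : Type*} [CommRing R] {a b : R} (ha : ∀ x, a * x = 0 → x = 0)
    (hb : ∀ x, b * x ∈ Ideal.span {a} → x ∈ Ideal.span {a}) (B : ℕ) (g : ℕ → R)
    (h : ∑ j ∈ Finset.range (B + 1), a ^ j * b ^ (B - j) * g j = 0) :
    ∀ j ≤ B, g j ∈ Ideal.span {a, b} := by
  have hpow : ∀ (n : ℕ) (x : R), b ^ n * x ∈ Ideal.span {a} → x ∈ Ideal.span {a} := by
    intro n
    induction n with
    | zero =>
      intro x hx
      rwa [pow_zero, one_mul] at hx
    | succ n ih =>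
      intro x hx
      apply ih
      apply hb
      rwa [pow_succ', mul_assoc] at hx
  have hma : a ∈ Ideal.span ({a, b} : Set R) := Ideal.subset_span (by simp)
  have hmb : b ∈ Ideal.span ({a, b} : Set R) := Ideal.subset_span (by simp)
  induction B generalizing g with
  | zero =>
    intro j hj
    obtain rfl : j = 0 := by omega
    have h0 : g 0 = 0 := by simpa using h
    rw [h0]
    exact Ideal.zero_mem _
  | succ B ih =>
    rw [Finset.sum_range_succ'] at h
    have h1 : ∑ k ∈ Finset.range (B + 1), a ^ (k + 1) * b ^ (B + 1 - (k + 1)) * g (k + 1) =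
        a * ∑ k ∈ Finset.range (B + 1), a ^ k * b ^ (B - k) * g (k + 1) := by
      rw [Finset.mul_sum]
      refine Finset.sum_congr rfl fun k _ => ?_
      rw [Nat.add_sub_add_right]
      ring
    rw [h1, pow_zero, one_mul, Nat.sub_zero] at h
    have h2 : b ^ (B + 1) * g 0 ∈ Ideal.span {a} := by
      have h3 : b ^ (B + 1) * g 0 =
          -(∑ k ∈ Finset.range (B + 1), a ^ k * b ^ (B - k) * g (k + 1)) * a := by
        linear_combination h
      rw [h3]
      exact Ideal.mul_mem_left _ _ (Ideal.mem_span_singleton_self a)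
    obtain ⟨c, hc⟩ := Ideal.mem_span_singleton'.1 (hpow _ _ h2)
    have h4 : b ^ (B + 1) * c + ∑ k ∈ Finset.range (B + 1), a ^ k * b ^ (B - k) * g (k + 1) = 0 := by
      apply ha
      rw [← hc] at h
      linear_combination h
    have h5 := ih (fun j => if j = 0 then g 1 + b * c else g (j + 1)) (by
      rw [Finset.sum_range_succ'] at h4 ⊢
      simp only [pow_zero, one_mul, Nat.sub_zero, Nat.succ_ne_zero, if_false, if_true, zero_add] at h4 ⊢
      linear_combination h4)
    intro j hj
    rcases j with _ | j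
    · rw [← hc]
      exact Ideal.mul_mem_left _ _ hma
    · have h6 := h5 j (by omega)
      rcases j with _ | j
      · simp only [if_true] at h6
        have h7 : g (0 + 1) = (g 1 + b * c) - c * b := by ring_nf
        rw [h7]
        exact Ideal.sub_mem _ h6 (Ideal.mul_mem_left _ _ hmb)
      · simpa using h6

end Pool.Agent.FSig.SA
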