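import Pool.Agent.Work.MP_27623f_ag.SA.Defs
import Pool.Agent.Work.MP_27623f_ag.SA.Syz
import Pool.Agent.Work.MP_27623f_ag.SA.ARJ

/-!
MODULE Emb (size M).  A linear form `λ = ∑ h_j (·)_j` on `S` with values in `R` and `λ(u) ∉ λ(𝔮)`.

PROOF.  `(origin J)^M ≤ 𝔮`; `B` from `hhigh M` (enlarge it: `B ≥ 1`, say `B = B' + 1`).  For `j < B` choose
`0 ≠ ι_j ∈ J^(-j)` (`hJ.ne`); `ι_j J^(j) ⊆ J^(0) = 1` (`hJ.mul`, `hJ.zero`; `symZ J j = symPow J j`), let `N_j` be given by
`exists_deep` for `m`, `symPow J j`, `ι_j`, `c = M`, and `N = max N_j`.  `a, b ∈ m^N` from `hreg N`.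
`h_j = algebraMap (a^j b^(B'-j)) ι_j` for `j < B`, `h_j = 0` for `j ≥ B`.  Suppose `lam h B x = lam h B u`, `x ∈ 𝔮`, and put
`f = u - x`.  Then `∑_{j ≤ B'} a^j b^(B'-j) g_j = 0` in `R` where `algebraMap g_j = ι_j f_j`.  By `syz`
`g_j ∈ (a, b) ≤ m^N`, so `f_j ∈ m^M • J^(j)`, and `monomial j f_j ∈ (origin J)^M` (it is a sum of products
`s · monomial j y`, `s ∈ m^M`, `y ∈ J^(j)`; the image of `m` in `symAlg J` lies in `origin J`).  The remaining part
`∑_{j ≥ B} monomial j f_j` is in `(origin J)^M` by `hhigh`.  So `f ∈ (origin J)^M ≤ 𝔮` and `u ∈ 𝔮`, a contradiction.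
-/

set_option autoImplicit false

namespace Pool.Agent.FSig.SA

private theorem embAlgPow {R K : Type*} [CommRing R] [IsLocalRing R] [Field K] [Algebra R K]
    [FaithfulSMul R K] (J : Submodule R K) (M : ℕ) {s : R}
    (hs : s ∈ IsLocalRing.maximalIdeal R ^ M) :
    algebraMap R (symAlg J) s ∈ origin J ^ M := by
  have h1 : (IsLocalRing.maximalIdeal R).map (algebraMap R (symAlg J)) ≤ origin J := by
    rw [Ideal.map_le_iff_le_comap]
    intro r hr
    rw [Ideal.mem_comap]
    show constTerm J (algebraMap R (symAlg J) r) ∈ IsLocalRing.maximalIdeal R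
    have h2 : constTerm J (algebraMap R (symAlg J) r) = r := by
      apply FaithfulSMul.algebraMap_injective R K
      rw [algebraMap_constTerm]
      show (algebraMap R (Polynomial K) r).coeff 0 = algebraMap R K r
      rw [Polynomial.algebraMap_apply, Polynomial.coeff_C_zero]
    rw [h2]
    exact hr
  have h3 : algebraMap R (symAlg J) s ∈
      ((IsLocalRing.maximalIdeal R) ^ M).map (algebraMap R (symAlg J)) :=
    Ideal.mem_map_of_mem _ hs
  rw [Ideal.map_pow] at h3
  exact Ideal.pow_right_mono h1 M h3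

private theorem embMono {R K : Type*} [CommRing R] [IsLocalRing R] [Field K] [Algebra R K]
    [FaithfulSMul R K] (J : Submodule R K) (M j : ℕ) {y : K}
    (hy : y ∈ IsLocalRing.maximalIdeal R ^ M • symPow J j) :
    ∃ t ∈ origin J ^ M, (t : Polynomial K) = Polynomial.monomial j y := by
  refine Submodule.smul_induction_on
    (p := fun y => ∃ t ∈ origin J ^ M, (t : Polynomial K) = Polynomial.monomial j y) hy ?_ ?_
  · intro s hs z hz
    have hz1 : Polynomial.monomial j z ∈ symAlg J := by
      intro n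
      rw [Polynomial.coeff_monomial]
      split_ifs with h
      · rw [← h]
        exact hz
      · exact Submodule.zero_mem _
    refine ⟨algebraMap R (symAlg J) s * ⟨_, hz1⟩,
      Ideal.mul_mem_right _ _ (embAlgPow J M hs), ?_⟩
    show algebraMap R (Polynomial K) s * Polynomial.monomial j z =
      Polynomial.monomial j (s • z)
    rw [Polynomial.algebraMap_apply, Polynomial.C_mul_monomial, Algebra.smul_def]
  · rintro y z ⟨t, ht, hty⟩ ⟨t', ht', htz⟩
    refine ⟨t + t', Ideal.add_mem _ ht ht', ?_⟩
    rw [map_add, ← hty, ← htz]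
    rfl

theorem embed {R K : Type*} [CommRing R] [IsDomain R] [IsNoetherianRing R] [IsLocalRing R]
    [Field K] [Algebra R K] [IsFractionRing R K] (J : Submodule R K)
    (hJ : DivSys R K (symZ J))
    (hreg : ∀ M : ℕ, ∃ a ∈ IsLocalRing.maximalIdeal R ^ M, ∃ b ∈ IsLocalRing.maximalIdeal R ^ M,
      a ≠ 0 ∧ ∀ x, b * x ∈ Ideal.span {a} → x ∈ Ideal.span {a})
    (hhigh : ∀ M : ℕ, ∃ B : ℕ, ∀ f : symAlg J,
      (∀ j < B, (f : Polynomial K).coeff j = 0) → f ∈ origin J ^ M)
    (q : Ideal (symAlg J)) (hq : ∃ M, origin J ^ M ≤ q) (u : symAlg J) (hu : u ∉ q) :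
    ∃ (B : ℕ) (h : ℕ → K), (∀ j : ℕ, h j ∈ symZ J (-(j : ℤ))) ∧
      ∀ x ∈ q, lam h B (x : Polynomial K) ≠ lam h B (u : Polynomial K) := by
  obtain ⟨M, hM⟩ := hq
  obtain ⟨B, hB⟩ := hhigh M
  choose ι hι hι0 using fun j : ℕ => hJ.ne (-(j : ℤ))
  have hmul : ∀ j : ℕ, ∀ x ∈ symPow J j, ι j * x ∈ (1 : Submodule R K) := by
    intro j x hx
    have h1 := hJ.mul (-(j : ℤ)) (j : ℤ) (ι j) (hι j) x hx
    rw [neg_add_cancel, hJ.zero] at h1
    exact h1
  choose N hN using fun j : ℕ => exists_deep (IsLocalRing.maximalIdeal R) (symPow J j) (ι j)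
    (hι0 j) (hmul j) M
  obtain ⟨a, ha, b, hb, ha0, hab⟩ := hreg ((Finset.range (B + 1)).sup N)
  refine ⟨B + 1, fun j => if j < B + 1 then (a ^ j * b ^ (B - j)) • ι j else 0, ?_, ?_⟩
  · intro j
    dsimp only
    split_ifs with h
    · exact Submodule.smul_mem _ _ (hι j)
    · exact Submodule.zero_mem _
  · intro x hx heq
    apply hu
    have hf : ∀ j, ((u - x : symAlg J) : Polynomial K).coeff j =
        (u : Polynomial K).coeff j - (x : Polynomial K).coeff j := by
      intro j
      rw [← Polynomial.coeff_sub]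
      rfl
    have hg : ∀ j : ℕ, ∃ r : R, algebraMap R K r =
        ι j * ((u - x : symAlg J) : Polynomial K).coeff j := by
      intro j
      exact Submodule.mem_one.1 (hmul j _ ((u - x : symAlg J).2 j))
    choose g hg using hg
    have hsum : ∑ j ∈ Finset.range (B + 1), a ^ j * b ^ (B - j) * g j = 0 := by
      apply FaithfulSMul.algebraMap_injective R K
      rw [map_zero, map_sum]
      have h1 : ∀ j ∈ Finset.range (B + 1), algebraMap R K (a ^ j * b ^ (B - j) * g j) =
          (if j < B + 1 then (a ^ j * b ^ (B - j)) • ι j else 0) * (u : Polynomial K).coeff j -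
          (if j < B + 1 then (a ^ j * b ^ (B - j)) • ι j else 0) *
            (x : Polynomial K).coeff j := by
        intro j hj
        rw [if_pos (Finset.mem_range.1 hj), map_mul, hg, hf, Algebra.smul_def]
        ring
      rw [Finset.sum_congr rfl h1, Finset.sum_sub_distrib, sub_eq_zero]
      exact heq.symm
    have hgm : ∀ j ≤ B, g j ∈ IsLocalRing.maximalIdeal R ^ N j := by
      intro j hj
      have h1 := syz (a := a) (b := b)
        (fun y hy => (mul_eq_zero.1 hy).resolve_left ha0) hab B g hsum j hj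
      have h2 : Ideal.span {a, b} ≤
          IsLocalRing.maximalIdeal R ^ (Finset.range (B + 1)).sup N := by
        rw [Ideal.span_le]
        intro y hy
        rcases hy with rfl | hy
        · exact ha
        · rw [Set.mem_singleton_iff.1 hy]
          exact hb
      exact Ideal.pow_le_pow_right
        (Finset.le_sup (f := N) (Finset.mem_range.2 (by omega))) (h2 h1)
    have hfm : ∀ j ∈ Finset.range (B + 1), ∃ t ∈ origin J ^ M, (t : Polynomial K) =
        Polynomial.monomial j (((u - x : symAlg J) : Polynomial K).coeff j) := by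
      intro j hj
      exact embMono J M j (hN j _ ((u - x : symAlg J).2 j) (g j)
        (hgm j (by have := Finset.mem_range.1 hj; omega)) (hg j))
    have ht : ∃ t ∈ origin J ^ M, (t : Polynomial K) = ∑ j ∈ Finset.range (B + 1),
        Polynomial.monomial j (((u - x : symAlg J) : Polynomial K).coeff j) := by
      have h1 : ∀ s : Finset ℕ, s ⊆ Finset.range (B + 1) →
          ∃ t ∈ origin J ^ M, (t : Polynomial K) = ∑ j ∈ s,
            Polynomial.monomial j (((u - x : symAlg J) : Polynomial K).coeff j) := by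
        intro s
        induction s using Finset.induction_on with
        | empty =>
          intro _
          exact ⟨0, Submodule.zero_mem _, by simp⟩
        | insert i s hi ih =>
          intro hs
          obtain ⟨t, ht, htt⟩ := ih (fun k hk => hs (Finset.mem_insert_of_mem hk))
          obtain ⟨t', ht', htt'⟩ := hfm i (hs (Finset.mem_insert_self i s))
          refine ⟨t' + t, Ideal.add_mem _ ht' ht, ?_⟩
          rw [Finset.sum_insert hi, ← htt, ← htt']
          rfl
      exact h1 _ (Finset.Subset.refl _)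
    obtain ⟨t, ht, htt⟩ := ht
    have hrest : (u - x) - t ∈ origin J ^ M := by
      apply hB
      intro j hj
      have h1 : (((u - x) - t : symAlg J) : Polynomial K).coeff j =
          ((u - x : symAlg J) : Polynomial K).coeff j - (t : Polynomial K).coeff j := by
        rw [← Polynomial.coeff_sub]
        rfl
      rw [h1, htt, Polynomial.finsetSum_coeff]
      simp only [Polynomial.coeff_monomial]
      rw [Finset.sum_ite_eq' , if_pos (Finset.mem_range.2 (by omega)), sub_self]
    have hu1 : u = ((u - x) - t) + t + x := by ring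
    rw [hu1]
    exact Ideal.add_mem _ (Ideal.add_mem _ (hM hrest) (hM ht)) hx

end Pool.Agent.FSig.SA
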