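import Pool.Agent.Work.MP_27623f_ag.SA.Defs

/-!
MODULE High (size M).  Elements of high order lie in a high power of the origin ideal.

PROOF.  Let `G` be a finite set of generators of the `R`-algebra `symAlg J`; the homogeneous components
`monomial j (f.coeff j)`, `f ∈ G`, are in `symAlg J` and generate it; let `x_1, ..., x_k` be those with `j ≥ 1`, `d_i ≥ 1`
their degrees, `d_i ≤ b₀`, `b₀ ≥ 1` (those with `j = 0` are in the image of `R`).  Every element of `symAlg J` is an
`R`-combination of monomials `∏ x_i^(a_i)`; `x_i ∈ origin J` (`constTerm x_i = 0`), and such a monomial is homogeneous of degree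
`∑ a_i d_i ≤ b₀ ∑ a_i`.  Claim: every homogeneous element `monomial j c ∈ symAlg J` with `j ≥ b₀ M` is in
`(origin J)^M`: take the component of degree `j` of its expression, only monomials with `∑ a_i d_i = j ≥ b₀ M` occur, so
`∑ a_i ≥ M`.  `B = b₀ M`: `f = ∑_{j ≥ B} monomial j (f.coeff j)`.
A convenient way: prove by `Algebra.adjoin_induction` (or `Submonoid`/`Subalgebra` induction) the statement
`P f : ∀ j, b₀ M ≤ j → monomial j (f.coeff j) ∈ (origin J)^M` in the form
`P' f : ∀ M j, b₀ M ≤ j → (the component of degree j) ∈ (origin J)^M`; for products use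
`(f g)_j = ∑_{i + l = j} f_i g_l`, with `M₁ = i / b₀`, `M₂ = l / b₀` only `M₁ + M₂ ≥ (j / b₀) - 1` is obtained, so it is
better to use monomials in the generators (`Algebra.adjoin_eq_span`, `Submonoid.closure` of the `x_i`): a product of
`N` of the `x_i` has degree `≤ b₀ N` and is in `(origin J)^N`.
-/

set_option autoImplicit false

namespace Pool.Agent.FSig.SA

open Polynomial in
private theorem comp_mem {R K : Type*} [CommRing R] [Field K] [Algebra R K] {J : Submodule R K}
    {f : K[X]} (hf : f ∈ symAlg J) (j : ℕ) : monomial j (f.coeff j) ∈ symAlg J := by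
  intro n
  rw [Polynomial.coeff_monomial]
  split_ifs with h
  · rw [← h]
    exact hf j
  · exact Submodule.zero_mem _

open Polynomial in
/-- the power of the origin ideal, as a submodule of the polynomials -/
private noncomputable def oP {R K : Type*} [CommRing R] [IsLocalRing R] [Field K] [Algebra R K]
    [FaithfulSMul R K] (J : Submodule R K) (M : ℕ) : Submodule R K[X] :=
  ((origin J ^ M).restrictScalars R).map (symAlg J).val.toLinearMap

open Polynomial in
private theorem mem_oP {R K : Type*} [CommRing R] [IsLocalRing R] [Field K] [Algebra R K]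
    [FaithfulSMul R K] {J : Submodule R K} {M : ℕ} {f : K[X]} :
    f ∈ oP J M ↔ ∃ h : symAlg J, h ∈ origin J ^ M ∧ (h : K[X]) = f := by
  constructor
  · rintro ⟨h, h1, h2⟩
    exact ⟨h, h1, h2⟩
  · rintro ⟨h, h1, h2⟩
    exact ⟨h, h1, h2⟩

open Polynomial in
private theorem oP_mul {R K : Type*} [CommRing R] [IsLocalRing R] [Field K] [Algebra R K]
    [FaithfulSMul R K] {J : Submodule R K} {M N : ℕ} {f g : K[X]} (hf : f ∈ oP J M)
    (hg : g ∈ oP J N) : f * g ∈ oP J (M + N) := by
  obtain ⟨h, h1, rfl⟩ := mem_oP.1 hf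
  obtain ⟨k, k1, rfl⟩ := mem_oP.1 hg
  refine mem_oP.2 ⟨h * k, ?_, rfl⟩
  rw [pow_add]
  exact Ideal.mul_mem_mul h1 k1

open Polynomial in
private theorem oP_zero {R K : Type*} [CommRing R] [IsLocalRing R] [Field K] [Algebra R K]
    [FaithfulSMul R K] {J : Submodule R K} {f : K[X]} (hf : f ∈ symAlg J) : f ∈ oP J 0 :=
  mem_oP.2 ⟨⟨f, hf⟩, by simp, rfl⟩

open Polynomial in
private theorem oP_one {R K : Type*} [CommRing R] [IsLocalRing R] [Field K] [Algebra R K]
    [FaithfulSMul R K] {J : Submodule R K} {f : K[X]} (hf : f ∈ symAlg J) (h0 : f.coeff 0 = 0) :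
    f ∈ oP J 1 := by
  refine mem_oP.2 ⟨⟨f, hf⟩, ?_, rfl⟩
  rw [pow_one]
  have h1 : constTerm J ⟨f, hf⟩ = 0 := by
    apply FaithfulSMul.algebraMap_injective R K
    rw [algebraMap_constTerm, map_zero]
    exact h0
  show constTerm J ⟨f, hf⟩ ∈ IsLocalRing.maximalIdeal R
  rw [h1]
  exact Ideal.zero_mem _

open Polynomial in
private theorem adj_mem {R K : Type*} [CommRing R] [IsLocalRing R] [Field K] [Algebra R K]
    [FaithfulSMul R K] {J : Submodule R K} (G : Finset K[X])
    (hG : Algebra.adjoin R (G : Set K[X]) = symAlg J) (b : ℕ) (hb : 1 ≤ b)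
    (hd : ∀ g ∈ G, g.natDegree ≤ b) (f : K[X]) (hf : f ∈ symAlg J) :
    ∀ M j, b * M ≤ j → monomial j (f.coeff j) ∈ oP J M := by
  have hGJ : ∀ g ∈ G, g ∈ symAlg J := fun g hg => by
    rw [← hG]
    exact Algebra.subset_adjoin hg
  have hcl : ∀ f ∈ Submonoid.closure (G : Set K[X]), f ∈ symAlg J ∧
      ∀ M j, b * M ≤ j → monomial j (f.coeff j) ∈ oP J M := by
    intro f hf
    induction hf using Submonoid.closure_induction_right with
    | one =>
      refine ⟨Subalgebra.one_mem _, fun M j hj => ?_⟩
      rw [Polynomial.coeff_one]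
      split_ifs with h
      · have hM : M = 0 := by
          rw [h] at hj
          rcases Nat.mul_eq_zero.1 (Nat.le_zero.1 hj) with h1 | h1
          · omega
          · exact h1
        rw [hM, h]
        exact oP_zero (Subalgebra.one_mem _)
      · rw [Polynomial.monomial_zero_right]
        exact Submodule.zero_mem _
    | mul_right m hm g hg ih =>
      obtain ⟨ih1, ih2⟩ := ih
      have hg' := hGJ g hg
      refine ⟨Subalgebra.mul_mem _ ih1 hg', fun M j hj => ?_⟩
      rcases M with _ | M
      · exact oP_zero (comp_mem (Subalgebra.mul_mem _ ih1 hg') j)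
      · have e : monomial j ((m * g).coeff j) =
            ∑ x ∈ Finset.HasAntidiagonal.antidiagonal j, monomial x.1 (m.coeff x.1) * monomial x.2 (g.coeff x.2) := by
          rw [Polynomial.coeff_mul, map_sum]
          refine Finset.sum_congr rfl fun x hx => ?_
          rw [Polynomial.monomial_mul_monomial, Finset.HasAntidiagonal.mem_antidiagonal.1 hx]
        rw [e]
        refine Submodule.sum_mem _ fun x hx => ?_
        have hx' := Finset.HasAntidiagonal.mem_antidiagonal.1 hx
        rcases Nat.eq_zero_or_pos x.2 with h0 | h0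
        · have h1 := ih2 (M + 1) x.1 (by omega)
          have h2 := oP_mul h1 (oP_zero (comp_mem hg' x.2))
          rwa [add_zero] at h2
        · by_cases hxb : x.2 ≤ b
          · have h1 := ih2 M x.1 (by rw [Nat.mul_succ] at hj; omega)
            refine oP_mul h1 (oP_one (comp_mem hg' x.2) ?_)
            rw [Polynomial.coeff_monomial, if_neg (by omega)]
          · have h2 : g.coeff x.2 = 0 :=
              Polynomial.coeff_eq_zero_of_natDegree_lt (by have := hd g hg; omega)
            rw [h2, Polynomial.monomial_zero_right, mul_zero]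
            exact Submodule.zero_mem _
  rw [← hG, ← Subalgebra.mem_toSubmodule, Algebra.adjoin_eq_span] at hf
  induction hf using Submodule.span_induction with
  | mem x hx => exact (hcl x hx).2
  | zero =>
    intro M j _
    rw [Polynomial.coeff_zero, Polynomial.monomial_zero_right]
    exact Submodule.zero_mem _
  | add x y _ _ hx hy =>
    intro M j hj
    rw [Polynomial.coeff_add, map_add]
    exact Submodule.add_mem _ (hx M j hj) (hy M j hj)
  | smul r x _ hx =>
    intro M j hj
    rw [Polynomial.coeff_smul, ← Polynomial.smul_monomial]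
    exact Submodule.smul_mem _ r (hx M j hj)

theorem high {R K : Type*} [CommRing R] [IsLocalRing R] [Field K] [Algebra R K]
    [FaithfulSMul R K] (J : Submodule R K) (hS : (symAlg J).FG) (M : ℕ) :
    ∃ B : ℕ, ∀ f : symAlg J, (∀ j < B, (f : Polynomial K).coeff j = 0) → f ∈ origin J ^ M := by
  obtain ⟨G, hG⟩ := hS
  set b : ℕ := G.sup Polynomial.natDegree + 1 with hb
  have hd : ∀ g ∈ G, g.natDegree ≤ b := fun g hg => by
    have := Finset.le_sup (f := Polynomial.natDegree) hg
    omega
  refine ⟨b * M, fun f hf => ?_⟩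
  have h1 : (f : Polynomial K) ∈ oP J M := by
    rw [Polynomial.as_sum_range (f : Polynomial K)]
    refine Submodule.sum_mem _ fun j _ => ?_
    by_cases hj : j < b * M
    · rw [hf j hj, Polynomial.monomial_zero_right]
      exact Submodule.zero_mem _
    · exact adj_mem G hG b (by omega) hd _ f.2 M j (not_lt.1 hj)
  obtain ⟨h, h2, h3⟩ := mem_oP.1 h1
  have h4 : h = f := Subtype.ext h3
  rw [← h4]
  exact h2

end Pool.Agent.FSig.SA
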