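import Pool.Agent.Work.MP_27623f_ag.SA.Defs

/-!
MODULE Hom (size S-M).  `Hom_R(J^(n), R) = J^(-n)`.

PROOF.  Let `0 ≠ b ∈ J n` (`hJ.ne`), `a = algebraMap (φ b) / b`.  For `x ∈ J n` there are `r, s ∈ R`, `s ≠ 0`, with
`s x = r b` (clear the denominator of `x / b`, `IsFractionRing`), so `s φ x = r φ b`, and
`algebraMap (φ x) = (r / s) algebraMap (φ b) = (x / b) algebraMap (φ b) = a x`.  Hence `a x ∈ R` for all `x ∈ J n` and
`a ∈ J (-n)` by `hJ.dual`.
-/

set_option autoImplicit false

namespace Pool.Agent.FSig.SA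

theorem exists_mul_of_hom {R K : Type*} [CommRing R] [IsDomain R] [Field K] [Algebra R K]
    [IsFractionRing R K] {J : ℤ → Submodule R K} (hJ : DivSys R K J) (n : ℤ)
    (φ : J n →ₗ[R] R) : ∃ a ∈ J (-n), ∀ x : J n, algebraMap R K (φ x) = a * (x : K) := by
  obtain ⟨b, hb, hb0⟩ := hJ.ne n
  have key : ∀ x : J n,
      algebraMap R K (φ x) = algebraMap R K (φ ⟨b, hb⟩) / b * (x : K) := by
    intro x
    obtain ⟨r, s, hs, hrs⟩ := IsFractionRing.div_surjective (A := R) ((x : K) / b)
    have hs0 : algebraMap R K s ≠ 0 := by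
      have h1 : s ≠ 0 := nonZeroDivisors.ne_zero hs
      exact (map_ne_zero_iff _ (IsFractionRing.injective R K)).2 h1
    have h2 : algebraMap R K s * (x : K) = algebraMap R K r * b := by
      rw [div_eq_div_iff hs0 hb0] at hrs
      rw [hrs]
      ring
    have h3 : s • x = r • (⟨b, hb⟩ : J n) := by
      apply Subtype.ext
      show s • (x : K) = r • b
      rw [Algebra.smul_def, Algebra.smul_def]
      exact h2
    have h4 : s * φ x = r * φ ⟨b, hb⟩ := by
      have h5 := congrArg φ h3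
      rwa [map_smul, map_smul, smul_eq_mul, smul_eq_mul] at h5
    have h6 : algebraMap R K s * algebraMap R K (φ x) =
        algebraMap R K r * algebraMap R K (φ ⟨b, hb⟩) := by
      rw [← map_mul, ← map_mul, h4]
    apply mul_left_cancel₀ hs0
    rw [h6]
    have h7 : algebraMap R K s * (algebraMap R K (φ ⟨b, hb⟩) / b * (x : K)) =
        algebraMap R K (φ ⟨b, hb⟩) / b * (algebraMap R K s * (x : K)) := by ring
    rw [h7, h2]
    field_simp
  refine ⟨algebraMap R K (φ ⟨b, hb⟩) / b, ?_, key⟩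
  apply hJ.dual n
  intro y hy
  rw [← key ⟨y, hy⟩]
  exact Submodule.mem_one.2 ⟨_, rfl⟩

end Pool.Agent.FSig.SA
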