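import Pool.Agent.Work.MP_27623f_ag.SA.Defs

/-!
MODULE Lam (size M).  Identities for `lam`, `lamq`, `ecomp` in characteristic `p`.

PROOF.  `q = p^e`.  `(u^q).coeff (q j) = (u.coeff j)^q` and `u^q` has only terms of degree divisible by `q`
(`Polynomial.map_iterateFrobenius_expand` / `Polynomial.expand_char`: `expand K q (map (frobenius^e) u) = u^q`;
`Polynomial.coeff_expand_mul`).  So `lamq (C r * u^q) = r ∑ h_j^q u_j^q = r (∑ h_j u_j)^q` (`sum_pow_char_pow`).
`(g^q a).coeff (q j) = ∑_{l ≤ j} g_l^q a.coeff (q (j - l))` (`Polynomial.coeff_mul`, only the terms `(q l, q j - q l)` of the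
antidiagonal are nonzero, `Polynomial.coeff_expand`), so with `n = j - l`:
`lamq (g^q a) = ∑_{j < B} ∑_{n ≤ j} (h_j g_(j-n))^q a.coeff (q n) = ∑_{n < B} (∑_{n ≤ j < B} h_j g_(j-n))^q a.coeff (q n)`.
`lam_shift`: `(C a X^n g).coeff j = a g.coeff (j - n)` for `n ≤ j`, `0` for `j < n`.
-/

set_option autoImplicit false

namespace Pool.Agent.FSig.SA

open Polynomial

private theorem coeff_frob {K : Type*} [Field K] (p e : ℕ) [Fact p.Prime] [CharP K p] (u : K[X])
    (m : ℕ) : (u ^ p ^ e).coeff m = if p ^ e ∣ m then u.coeff (m / p ^ e) ^ p ^ e else 0 := by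
  have : ExpChar K p := ExpChar.prime Fact.out
  have hq : 0 < p ^ e := pow_pos (Fact.out : p.Prime).pos e
  rw [← Polynomial.map_iterateFrobenius_expand p u e, Polynomial.coeff_map,
    Polynomial.coeff_expand hq]
  split_ifs with h
  · rw [iterateFrobenius_def]
  · rw [map_zero]

private theorem coeff_frob_mul {K : Type*} [Field K] (p e : ℕ) [Fact p.Prime] [CharP K p]
    (u : K[X]) (j : ℕ) : (u ^ p ^ e).coeff (p ^ e * j) = u.coeff j ^ p ^ e := by
  have hq : 0 < p ^ e := pow_pos (Fact.out : p.Prime).pos e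
  rw [coeff_frob, if_pos (Dvd.intro j rfl), Nat.mul_div_cancel_left _ hq]

theorem lamq_C_mul_pow {K : Type*} [Field K] (p e : ℕ) [Fact p.Prime] [CharP K p] (h : ℕ → K)
    (B : ℕ) (r : K) (u : K[X]) :
    lamq h B (p ^ e) (C r * u ^ p ^ e) = r * lam h B u ^ p ^ e := by
  unfold lamq lam
  rw [sum_pow_char_pow, Finset.mul_sum]
  refine Finset.sum_congr rfl fun j _ => ?_
  rw [Polynomial.coeff_C_mul, coeff_frob_mul, mul_pow]
  ring

private theorem coeff_pow_mul {K : Type*} [Field K] (p e : ℕ) [Fact p.Prime] [CharP K p]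
    (g a : K[X]) (j : ℕ) :
    (g ^ p ^ e * a).coeff (p ^ e * j) =
      ∑ n ∈ Finset.range (j + 1), g.coeff (j - n) ^ p ^ e * a.coeff (p ^ e * n) := by
  have hq : 0 < p ^ e := pow_pos (Fact.out : p.Prime).pos e
  rw [Polynomial.coeff_mul]
  symm
  refine Finset.sum_of_injOn (fun n => (p ^ e * (j - n), p ^ e * n)) ?_ ?_ ?_ ?_
  · intro a _ b _ hab
    have := congrArg Prod.snd hab
    exact Nat.eq_of_mul_eq_mul_left hq this
  · intro n hn
    have hn' : n < j + 1 := by simpa using hn
    simp only [Finset.mem_coe, Finset.HasAntidiagonal.mem_antidiagonal]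
    rw [← Nat.mul_add]
    congr 1
    omega
  · intro x hx hne
    rw [Finset.HasAntidiagonal.mem_antidiagonal] at hx
    rw [coeff_frob]
    split_ifs with hd
    · exfalso
      apply hne
      obtain ⟨l, hl⟩ := hd
      have hd2 : p ^ e ∣ x.2 := by
        have h1 : p ^ e ∣ x.1 + x.2 := by rw [hx]; exact Dvd.intro j rfl
        exact (Nat.dvd_add_right ⟨l, hl⟩).mp h1
      obtain ⟨n, hn⟩ := hd2
      have hln : l + n = j := by
        have h2 : p ^ e * (l + n) = p ^ e * j := by rw [Nat.mul_add, ← hl, ← hn, hx]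
        exact Nat.eq_of_mul_eq_mul_left hq h2
      refine ⟨n, ?_, ?_⟩
      · simp only [Finset.coe_range, Set.mem_Iio]
        omega
      · ext
        · change p ^ e * (j - n) = x.1
          rw [hl, ← hln, Nat.add_sub_cancel]
        · exact hn.symm
    · rw [zero_mul]
  · intro n _
    change _ = (g ^ p ^ e).coeff (p ^ e * (j - n)) * a.coeff (p ^ e * n)
    rw [coeff_frob_mul]

theorem lamq_pow_mul {K : Type*} [Field K] (p e : ℕ) [Fact p.Prime] [CharP K p] (h : ℕ → K)
    (B : ℕ) (g a : K[X]) :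
    lamq h B (p ^ e) (g ^ p ^ e * a) =
      ∑ n ∈ Finset.range B, ecomp h B g n ^ p ^ e * a.coeff (p ^ e * n) := by
  unfold lamq ecomp
  have h1 : ∀ j ∈ Finset.range B, h j ^ p ^ e * (g ^ p ^ e * a).coeff (p ^ e * j) =
      ∑ n ∈ Finset.range B, if n ≤ j then
        (h j * g.coeff (j - n)) ^ p ^ e * a.coeff (p ^ e * n) else 0 := by
    intro j hj
    rw [Finset.mem_range] at hj
    rw [coeff_pow_mul, Finset.mul_sum, ← Finset.sum_filter]
    have h2 : (Finset.range B).filter (fun n => n ≤ j) = Finset.range (j + 1) := by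
      ext n
      simp only [Finset.mem_filter, Finset.mem_range]
      omega
    rw [h2]
    refine Finset.sum_congr rfl fun n _ => ?_
    rw [mul_pow, mul_assoc]
  rw [Finset.sum_congr rfl h1, Finset.sum_comm]
  refine Finset.sum_congr rfl fun n _ => ?_
  rw [sum_pow_char_pow, Finset.sum_mul, Finset.sum_filter]

theorem lamq_sum {K : Type*} [Field K] (h : ℕ → K) (B q : ℕ) {ι : Type*} (s : Finset ι)
    (f : ι → K[X]) : lamq h B q (∑ i ∈ s, f i) = ∑ i ∈ s, lamq h B q (f i) := by
  unfold lamq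
  rw [Finset.sum_comm]
  refine Finset.sum_congr rfl fun j _ => ?_
  rw [Polynomial.finsetSum_coeff, Finset.mul_sum]

theorem lam_shift {K : Type*} [Field K] (h : ℕ → K) (B : ℕ) (a : K) (n : ℕ) (g : K[X]) :
    lam h B (C a * X ^ n * g) = a * ecomp h B g n := by
  unfold lam ecomp
  rw [Finset.mul_sum, Finset.sum_filter]
  refine Finset.sum_congr rfl fun j _ => ?_
  rw [mul_assoc, Polynomial.coeff_C_mul, Polynomial.coeff_X_pow_mul']
  split_ifs with hn
  · ring
  · ring

end Pool.Agent.FSig.SA
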