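import Pool.Agent.Work.MP_27623f_ag.SA.Sys
import Pool.Agent.Work.MP_27623f_ag.SA.Hom
import Pool.Agent.Work.MP_27623f_ag.SA.Elem
import Pool.Agent.Work.MP_27623f_ag.SA.Depth
import Pool.Agent.Work.MP_27623f_ag.SA.Cof
import Pool.Agent.Work.MP_27623f_ag.SA.High
import Pool.Agent.Work.MP_27623f_ag.SA.Emb
import Pool.Agent.Work.MP_27623f_ag.SA.Lam
import Pool.Agent.Work.MP_27623f_ag.Frob

/-!
MODULE StB (size M-L, helper63).  Second half: from the symbolic algebra back to `R`.

PROOF.  `B, h` from `embed`.  `lam h B x ∈ 1` for `x ∈ S` (`h_j x_j ∈ J^(-j) J^(j)`).  `𝔞₁ = {r | ∃ x ∈ 𝔮, r = lam h B x}` is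
an ideal of `R`, `w₁ = lam h B u ∉ 𝔞₁`; `(I₁, w₁)` from `exists_pair_of_not_mem`.  `𝔮 = (g_1, ..., g_m)`.  For
`e_(i,n) = ecomp h B g_i n ∈ J^(-n)` and `ψ : J^(-n) → R`, `ψ = a ·`, `a ∈ J^(n)` (`exists_mul_of_hom`):
`ψ e_(i,n) = a e_(i,n) = lam h B (a X^n g_i) ∈ 𝔞₁ ≤ I₁`.  `N` large by `elem` for all `i` and `n < B`; `(I, h')` from
`cofinal_pair`, `w = h' w₁`.  If `r w'^q ∈ I'^[q]` then `r u^q = ∑ g_i^q a_i`; apply `lamq`:
`r w₁^q = ∑_i ∑_{n < B} e_(i,n)^q (a_i)_(q n)`, multiply by `h'^q`: `h' e_(i,n) = ∑ ι_l d_l`, `ι_l ∈ I`, `d_l ∈ J^(-n)`,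
`(h' e_(i,n))^q (a_i)_(q n) = ∑ ι_l^q (d_l^q (a_i)_(q n)) ∈ I^[q]`.
-/

set_option autoImplicit false

namespace Pool.Agent.FSig.SA

universe u

/-- powers in a divisorial system -/
private theorem pow_mem_sys {R K : Type*} [CommRing R] [Field K] [Algebra R K]
    {J : ℤ → Submodule R K} (hJ : DivSys R K J) (i : ℤ) (x : K) (hx : x ∈ J i) (k : ℕ) :
    x ^ k ∈ J (k * i) := by
  induction k with
  | zero =>
    rw [pow_zero, Nat.cast_zero, zero_mul, hJ.zero]
    exact Submodule.one_le.1 le_rfl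
  | succ k ih =>
    have h1 := hJ.mul _ _ _ ih _ hx
    have h2 : ((k + 1 : ℕ) : ℤ) * i = k * i + i := by push_cast; ring
    rw [h2, pow_succ]
    exact h1

private theorem mon_mem {R K : Type*} [CommRing R] [Field K] [Algebra R K]
    {J : Submodule R K} {n : ℕ} {a : K} (ha : a ∈ symPow J n) :
    (Polynomial.C a * Polynomial.X ^ n : Polynomial K) ∈ symAlg J := by
  intro m
  rw [Polynomial.coeff_C_mul_X_pow]
  split_ifs with h
  · rw [h]; exact ha
  · exact Submodule.zero_mem _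

theorem stageB {R K : Type u} [CommRing R] [IsDomain R] [IsNoetherianRing R] [IsLocalRing R]
    [IsIntegrallyClosed R] [Field K] [Algebra R K] [IsFractionRing R K] (p : ℕ) [Fact p.Prime]
    [CharP R p] (hd : 2 ≤ ringKrullDim R) (J : Submodule R K) (hJ : J.FG) (hJ0 : J ≠ ⊥)
    (hfg : (symAlg J).FG) (q : Ideal (symAlg J)) (u : symAlg J)
    (hq : ∃ M, origin J ^ M ≤ q) (hu : u ∉ q)
    (H : ∀ (I' : Ideal R) (w' : R), Pair R I' w' → ∀ (e : ℕ) (r : R),
        r * w' ^ p ^ e ∈ frobPow I' (p ^ e) →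
          algebraMap R (symAlg J) r * u ^ p ^ e ∈ frobPow q (p ^ e)) (N : ℕ) :
    ∃ (I : Ideal R) (w : R), Pair R I w ∧ I ≤ IsLocalRing.maximalIdeal R ^ N ∧
      ∀ (I' : Ideal R) (w' : R), Pair R I' w' → ∀ (e : ℕ) (r : R),
        r * w' ^ p ^ e ∈ frobPow I' (p ^ e) → r * w ^ p ^ e ∈ frobPow I (p ^ e) := by
  classical
  have hsys := divSys_symZ J hJ hJ0
  have hinj := FaithfulSMul.algebraMap_injective R K
  have hreg := fun M => exists_reg (R := R) hd M
  have hreg' : ∀ M : ℕ, ∃ a ∈ IsLocalRing.maximalIdeal R ^ M,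
      ∃ b ∈ IsLocalRing.maximalIdeal R ^ M,
      (∀ x, a * x = 0 → x = 0) ∧ ∀ x, b * x ∈ Ideal.span {a} → x ∈ Ideal.span {a} := by
    intro M
    obtain ⟨a, ha, b, hb, h1, h2⟩ := hreg M
    exact ⟨a, ha, b, hb, fun x hx => (mul_eq_zero.1 hx).resolve_left h1, h2⟩
  obtain ⟨B, h, hh, hlam⟩ := embed J hsys hreg (fun M => high J hfg M) q hq u hu
  have : Algebra.FiniteType R (symAlg J) := (Subalgebra.fg_iff_finiteType _).1 hfg
  have : IsNoetherianRing (symAlg J) := Algebra.FiniteType.isNoetherianRing R _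
  have : CharP K p := charP_of_injective_algebraMap hinj p
  have : CharP (symAlg J) p := by
    refine charP_of_injective_algebraMap (R := R) ?_ p
    exact FaithfulSMul.algebraMap_injective R (symAlg J)
  have : ExpChar (symAlg J) p := ExpChar.prime Fact.out
  -- the linear form
  have hlam1 : ∀ x : symAlg J, ∃ r : R, algebraMap R K r = lam h B (x : Polynomial K) := by
    intro x
    have h1 : lam h B (x : Polynomial K) ∈ (1 : Submodule R K) := by
      unfold lam
      refine Submodule.sum_mem _ fun j _ => ?_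
      have h2 := hsys.mul (-(j : ℤ)) (j : ℤ) _ (hh j) ((x : Polynomial K).coeff j) (x.2 j)
      rwa [neg_add_cancel, hsys.zero] at h2
    exact Submodule.mem_one.1 h1
  choose L hL using hlam1
  let Llin : symAlg J →ₗ[R] R :=
    { toFun := L
      map_add' := fun x y => by
        apply hinj
        rw [map_add, hL, hL, hL]
        unfold lam
        rw [← Finset.sum_add_distrib]
        refine Finset.sum_congr rfl fun j _ => ?_
        rw [Subalgebra.coe_add, Polynomial.coeff_add, mul_add]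
      map_smul' := fun r x => by
        apply hinj
        rw [RingHom.id_apply, smul_eq_mul, map_mul, hL, hL]
        unfold lam
        rw [Finset.mul_sum]
        refine Finset.sum_congr rfl fun j _ => ?_
        rw [Subalgebra.coe_smul, Polynomial.coeff_smul, Algebra.smul_def]
        ring }
  have hLlin : ∀ x, Llin x = L x := fun _ => rfl
  let a₁ : Ideal R := Submodule.map Llin (q.restrictScalars R)
  have hw₁ : L u ∉ a₁ := by
    rintro ⟨x, hx, hxu⟩
    refine hlam x hx ?_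
    rw [← hL, ← hL]
    congr 1
  obtain ⟨I₁, hI₁, hP₁⟩ := exists_pair_of_not_mem a₁ (L u) hw₁
  obtain ⟨G, hG⟩ := (IsNoetherian.noetherian q : Submodule.FG q)
  have hGq : ∀ g ∈ G, g ∈ q := fun g hg => by
    rw [← hG]; exact Submodule.subset_span hg
  -- the components
  have hecomp : ∀ (g : symAlg J) (n : ℕ), ecomp h B (g : Polynomial K) n ∈ symZ J (-(n : ℤ)) := by
    intro g n
    unfold ecomp
    refine Submodule.sum_mem _ fun j hj => ?_
    rw [Finset.mem_filter] at hj
    have h2 := hsys.mul (-(j : ℤ)) ((j - n : ℕ) : ℤ) _ (hh j)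
      ((g : Polynomial K).coeff (j - n)) (g.2 (j - n))
    have h3 : -(j : ℤ) + ((j - n : ℕ) : ℤ) = -(n : ℤ) := by
      rw [Nat.cast_sub hj.2]; ring
    rwa [h3] at h2
  have hkey : ∀ (g : symAlg J) (n : ℕ), ∃ N : ℕ, g ∈ q → ∀ (I : Ideal R) (w h' : R), Pair R I w →
      I ≤ IsLocalRing.maximalIdeal R ^ N → (∀ x ∈ I₁, h' * x ∈ I) →
      h' • (⟨ecomp h B (g : Polynomial K) n, hecomp g n⟩ : symZ J (-(n : ℤ))) ∈
        I • (⊤ : Submodule R (symZ J (-(n : ℤ)))) := by
    intro g n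
    by_cases hg : g ∈ q
    · have : Module.Finite R (symZ J (-(n : ℤ))) := Module.Finite.iff_fg.2 (hsys.fg _)
      obtain ⟨N, hN⟩ := elem (D := symZ J (-(n : ℤ))) I₁ hP₁.prim
        (⟨ecomp h B (g : Polynomial K) n, hecomp g n⟩ : symZ J (-(n : ℤ))) (by
          intro ψ
          obtain ⟨a, ha, hψ⟩ := exists_mul_of_hom hsys (-(n : ℤ)) ψ
          rw [neg_neg] at ha
          have ha' : a ∈ symPow J n := ha
          have h1 : ψ (⟨ecomp h B (g : Polynomial K) n, hecomp g n⟩ : symZ J (-(n : ℤ))) =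
              L (⟨_, mon_mem ha'⟩ * g) := by
            apply hinj
            rw [hψ, hL, Subalgebra.coe_mul]
            exact (lam_shift h B a n (g : Polynomial K)).symm
          rw [h1]
          exact hI₁ ⟨_, q.mul_mem_left _ hg, rfl⟩)
      exact ⟨N, fun _ => hN⟩
    · exact ⟨0, fun h' => absurd h' hg⟩
  choose Nf hNf using hkey
  let N₀ : ℕ := max N (G.sup fun g => (Finset.range B).sup fun n => Nf g n)
  have hN₀ : ∀ g ∈ G, ∀ n < B, Nf g n ≤ N₀ := by
    intro g hg n hn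
    refine le_trans ?_ (le_max_right _ _)
    refine le_trans ?_ (Finset.le_sup (f := fun g => (Finset.range B).sup fun n => Nf g n) hg)
    exact Finset.le_sup (f := fun n => Nf g n) (Finset.mem_range.2 hn)
  obtain ⟨I, h', hP, hI, hIN⟩ := cofinal_pair hreg' hP₁ N₀
  refine ⟨I, h' * L u, hP, hIN.trans (Ideal.pow_le_pow_right (le_max_left _ _)), ?_⟩
  intro I' w' hP' e r hr
  have h1 := H I' w' hP' e r hr
  set Q := p ^ e with hQ
  -- expansion
  have h2 : frobPow q Q = Ideal.span ((fun g => g ^ Q) '' (G : Set (symAlg J))) := by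
    rw [hQ, frobPow_eq_map, ← hG, Ideal.submodule_span_eq, Ideal.map_span]
    rfl
  rw [h2] at h1
  obtain ⟨c, hc⟩ := (Submodule.mem_span_image_finset_iff_exists_fun' (symAlg J)).1 h1
  have h3 : (Polynomial.C (algebraMap R K r) * (u : Polynomial K) ^ Q : Polynomial K) =
      ∑ g ∈ G, (g : Polynomial K) ^ Q * (c g : Polynomial K) := by
    have h4 := congrArg (fun x : symAlg J => (x : Polynomial K)) hc
    simp only [smul_eq_mul] at h4
    rw [AddSubmonoidClass.coe_finsetSum] at h4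
    have h5 : ((algebraMap R (symAlg J) r : symAlg J) : Polynomial K) =
        Polynomial.C (algebraMap R K r) := by
      rw [← Polynomial.algebraMap_apply]
      rfl
    rw [Subalgebra.coe_mul, Subalgebra.coe_pow, h5] at h4
    rw [← h4]
    refine Finset.sum_congr rfl fun g _ => ?_
    rw [Subalgebra.coe_mul, Subalgebra.coe_pow, mul_comm]
  have h6 := congrArg (lamq h B Q) h3
  rw [hQ, lamq_C_mul_pow p e, lamq_sum] at h6
  simp only [lamq_pow_mul p e] at h6
  rw [← hQ] at h6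
  -- the terms
  have hterm : ∀ g ∈ G, ∀ n ∈ Finset.range B, ∃ z ∈ frobPow I Q, algebraMap R K z =
      (algebraMap R K h' * ecomp h B (g : Polynomial K) n) ^ Q *
        (c g : Polynomial K).coeff (Q * n) := by
    intro g hg n hn
    have h7 := hNf g n (hGq g hg) I _ h' hP
      (hIN.trans (Ideal.pow_le_pow_right (hN₀ g hg n (Finset.mem_range.1 hn)))) hI
    have gen : ∀ d : symZ J (-(n : ℤ)), d ∈ I • (⊤ : Submodule R (symZ J (-(n : ℤ)))) →
        ∃ z ∈ frobPow I Q, algebraMap R K z = (d : K) ^ Q * (c g : Polynomial K).coeff (Q * n) := by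
      intro d hdd
      refine Submodule.smul_induction_on hdd ?_ ?_
      · intro i hi d' _
        have h9 : ((Q : ℕ) : ℤ) * -(n : ℤ) + ((Q * n : ℕ) : ℤ) = 0 := by push_cast; ring
        have h10 : (d' : K) ^ Q * (c g : Polynomial K).coeff (Q * n) ∈ (1 : Submodule R K) := by
          have h11 := hsys.mul _ _ _ (pow_mem_sys hsys _ _ d'.2 Q)
            ((c g : Polynomial K).coeff (Q * n))
            (show (c g : Polynomial K).coeff (Q * n) ∈ symZ J ((Q * n : ℕ) : ℤ) from (c g).2 (Q * n))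
          rwa [h9, hsys.zero] at h11
        obtain ⟨t, ht⟩ := Submodule.mem_one.1 h10
        refine ⟨t * i ^ Q, Ideal.mul_mem_left _ _ (pow_mem_frobPow Q hi), ?_⟩
        rw [map_mul, map_pow, ht, Submodule.coe_smul, Algebra.smul_def, mul_pow]
        ring
      · rintro x y ⟨z1, hz1, e1⟩ ⟨z2, hz2, e2⟩
        refine ⟨z1 + z2, Ideal.add_mem _ hz1 hz2, ?_⟩
        rw [map_add, e1, e2, Submodule.coe_add, hQ, add_pow_char_pow, add_mul]
    obtain ⟨z, hz, hz2⟩ := gen _ h7
    refine ⟨z, hz, ?_⟩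
    rw [hz2, Submodule.coe_smul, Algebra.smul_def]
  choose! z hz hzz using hterm
  have hfin : algebraMap R K (r * (h' * L u) ^ Q) =
      algebraMap R K (∑ g ∈ G, ∑ n ∈ Finset.range B, z g n) := by
    rw [map_sum, map_mul, map_pow, map_mul, mul_pow, hL]
    have h12 : algebraMap R K r * (algebraMap R K h' ^ Q * lam h B (u : Polynomial K) ^ Q) =
        algebraMap R K h' ^ Q * (algebraMap R K r * lam h B (u : Polynomial K) ^ Q) := by ring
    rw [h12, h6, Finset.mul_sum]
    refine Finset.sum_congr rfl fun g hg => ?_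
    rw [map_sum, Finset.mul_sum]
    refine Finset.sum_congr rfl fun n hn => ?_
    rw [hzz g hg n hn, mul_pow]
    ring
  rw [hinj hfin]
  exact Ideal.sum_mem _ fun g hg => Ideal.sum_mem _ fun n hn => hz g hg n hn

end Pool.Agent.FSig.SA
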