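import Pool.Agent.Work.MP_27623f_ag.SA.StA
import Pool.Agent.Work.MP_27623f_ag.SA.StB
import Pool.Agent.Work.MP_27623f_ag.Criterion

/-!
MODULE Fin (size S-M, helper63).  Assembly.

PROOF.  `stageA`, `stageB` with `N = 2`, `criterion` for the family of all pairs `(I, w)` (index type
`{x : Ideal R × R // Pair R x.1 x.2}`), cofinal by `cofinal_pair` (start with any pair, `exists_pair_of_not_mem ⊥ 1`).
`w ∈ m`: otherwise `m ≤ I ≤ m^2`.
-/

set_option autoImplicit false

namespace Pool.Agent.FSig.SA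

universe u

theorem exists_pair_sym {R K : Type u} [CommRing R] [IsDomain R] [IsNoetherianRing R]
    [IsLocalRing R] [IsIntegrallyClosed R] [Field K] [Algebra R K] [IsFractionRing R K] (p : ℕ)
    [Fact p.Prime] [CharP R p] (hF : (frobenius R p).Finite) (hd : 2 ≤ ringKrullDim R)
    (J : Submodule R K) (hJ : J.FG) (hJ0 : J ≠ ⊥) (hfg : (symAlg J).FG)
    (hG : Gorenstein (Localization.AtPrime (origin J))) :
    ∃ I J : Ideal R, I < J ∧ J ≠ ⊤ ∧ (∃ N, IsLocalRing.maximalIdeal R ^ N ≤ I) ∧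
      ∀ e : ℕ, rootDegree (IsLocalRing.ResidueField R) (p ^ e) * colen (frobPow I (p ^ e)) =
        rootDegree (IsLocalRing.ResidueField R) (p ^ e) * colen (frobPow J (p ^ e)) +
          freeRank R (RootMod R p e) := by
  classical
  obtain ⟨q, u, hq, hu, H⟩ := stageA p J hfg hG
  obtain ⟨I, w, hP, hI2, hT⟩ := stageB p hd J hJ hJ0 hfg q u hq hu H 2
  have hR : IsLocalRing.maximalIdeal R ≠ ⊥ := by
    intro h0
    have h1 : IsField R := IsLocalRing.isField_iff_maximalIdeal_eq.2 h0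
    have h2 : ringKrullDim R = 0 := ringKrullDim_eq_zero_of_isField h1
    rw [h2] at hd
    exact absurd hd (by decide)
  have hreg' : ∀ M : ℕ, ∃ a ∈ IsLocalRing.maximalIdeal R ^ M,
      ∃ b ∈ IsLocalRing.maximalIdeal R ^ M,
      (∀ x, a * x = 0 → x = 0) ∧ ∀ x, b * x ∈ Ideal.span {a} → x ∈ Ideal.span {a} := by
    intro M
    obtain ⟨a, ha, b, hb, h1, h2⟩ := exists_reg (R := R) hd M
    exact ⟨a, ha, b, hb, fun x hx => (mul_eq_zero.1 hx).resolve_left h1, h2⟩
  let ι := {x : Ideal R × R // Pair R x.1 x.2}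
  have hcof : ∀ n, ∃ t : ι, t.1.1 ≤ IsLocalRing.maximalIdeal R ^ n := by
    intro n
    obtain ⟨I', h', h1, -, h2⟩ := cofinal_pair hreg' hP n
    exact ⟨⟨(I', h' * w), h1⟩, h2⟩
  have hwm : w ∈ IsLocalRing.maximalIdeal R := by
    by_contra hu
    rw [IsLocalRing.mem_maximalIdeal, mem_nonunits_iff, not_not] at hu
    have h1 : IsLocalRing.maximalIdeal R ≤ I := by
      intro a ha
      by_contra ha'
      obtain ⟨b, hb⟩ := hP.soc a ha'
      have h2 : b * a - w ∈ IsLocalRing.maximalIdeal R :=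
        (hI2.trans (Ideal.pow_le_self two_ne_zero)) hb
      have h3 : w ∈ IsLocalRing.maximalIdeal R := by
        have := Ideal.sub_mem _ (Ideal.mul_mem_left _ b ha) h2
        simpa using this
      exact (IsLocalRing.mem_maximalIdeal _).1 h3 hu
    have h2 : IsLocalRing.maximalIdeal R ≤
        IsLocalRing.maximalIdeal R • IsLocalRing.maximalIdeal R := by
      have := h1.trans hI2
      rwa [pow_two] at this
    exact hR (Submodule.eq_bot_of_le_smul_of_le_jacobson_bot _ _ (IsNoetherian.noetherian _) h2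
      (IsLocalRing.maximalIdeal_le_jacobson _))
  refine ⟨I, I ⊔ Ideal.span {w}, ?_, ?_, hP.prim, ?_⟩
  · refine lt_of_le_of_ne le_sup_left (fun h1 => hP.nmem ?_)
    rw [h1]
    exact Ideal.mem_sup_right (Ideal.mem_span_singleton_self _)
  · have h1 : I ⊔ Ideal.span {w} ≤ IsLocalRing.maximalIdeal R :=
      sup_le (hI2.trans (Ideal.pow_le_self two_ne_zero))
        ((Ideal.span_singleton_le_iff_mem _).2 hwm)
    intro h2
    rw [h2] at h1
    exact (IsLocalRing.maximalIdeal.isMaximal R).ne_top (top_le_iff.1 h1)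
  · intro e
    exact criterion p hF (fun t : ι => t.1.1) (fun t : ι => t.1.2) (fun t => t.2.prim)
      (fun t => t.2.nmem) (fun t => t.2.soc) hcof ⟨(I, w), hP⟩ e
      (fun t r hr => hT t.1.1 t.1.2 t.2 e r hr)

end Pool.Agent.FSig.SA
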