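import Pool.Agent.Work.MP_27623f_ag.SA.Defs
import Pool.Agent.Work.MP_27623f_ag.RegPow
import Pool.Agent.Work.MP_27623f_ag.ColonPow

/-!
MODULE PowP (size M).  Powers of a Gorenstein parameter ideal.

PROOF.  `reg_pow`, `colon_prod`, `colon_max` (files RegPow, ColonPow of `Pool/Agent/Work/MP_27623f_ag`), as in
`exists_pair` of `Final.lean`: `hP := fun a i T hi c s hs => reg_pow y hy a i T hi c s hs`.
`colon_pow`: `colon_prod` with `κ = t q`, `b = q`.
`pow_pair`: `prim`: the ideal `(y)^(n t + n + 1)` lies in `(y_i^(t+1))` (see `primary_comap` in `Cofinal.lean`);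
`nmem`: `colon_prod` with `κ = t`, `b = 1`; `soc`: see `socle_mult` in `SocleS.lean` (here without grading): let
`a ∉ 𝔟 = (y_i^(t+1))`; choose a monomial `Y = ∏ y_i^(β_i)`, `β_i ≤ t`, with `a Y ∉ 𝔟` and `|β|` maximal; then
`y_i a Y ∈ 𝔟` for all `i`, so `a Y ≡ w' ∏ y_i^t` modulo `𝔟` (`colon_max`); `w' ∉ (y)` since `y_i ∏ y_j^t ∈ 𝔟`; so
`b w' - u ∈ (y)` for some `b` and `b Y a ≡ u ∏ y_i^t`.
-/

set_option autoImplicit false

namespace Pool.Agent.FSig.SA

private theorem prod_mem_powId {S : Type*} [CommRing S] {n : ℕ} (x : Fin n → S) (κ β : Fin n → ℕ)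
    (i : Fin n) (hi : κ i < β i) (s : S) :
    s * ∏ j, x j ^ β j ∈ powId x (fun j => κ j + 1) := by
  have h1 : x i ^ (κ i + 1) ∈ powId x (fun j => κ j + 1) := Ideal.subset_span ⟨i, rfl⟩
  have h2 : x i ^ (κ i + 1) ∣ s * ∏ j, x j ^ β j :=
    ((pow_dvd_pow (x i) (by omega : κ i + 1 ≤ β i)).trans
      (Finset.dvd_prod_of_mem (fun j => x j ^ β j) (Finset.mem_univ i))).mul_left s
  exact Ideal.mem_of_dvd _ h2 h1

private theorem span_mul_mem {S : Type*} [CommRing S] {n : ℕ} (x : Fin n → S) (κ : Fin n → ℕ)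
    {s : S} (hs : s ∈ Ideal.span (Set.range x)) :
    s * ∏ j, x j ^ κ j ∈ powId x (fun j => κ j + 1) := by
  obtain ⟨c, rfl⟩ := Ideal.mem_span_range_iff_exists_fun.1 hs
  rw [Finset.sum_mul]
  refine Ideal.sum_mem _ fun i _ => ?_
  have h1 : x i * ∏ j, x j ^ κ j = ∏ j, x j ^ (Function.update κ i (κ i + 1)) j := by
    rw [← Finset.mul_prod_erase Finset.univ (fun j => x j ^ κ j) (Finset.mem_univ i),
      ← Finset.mul_prod_erase Finset.univ (fun j => x j ^ (Function.update κ i (κ i + 1)) j)
        (Finset.mem_univ i), Function.update_self, pow_succ']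
    rw [← mul_assoc]
    congr 1
    refine Finset.prod_congr rfl fun j hj => ?_
    rw [Function.update_of_ne (Finset.ne_of_mem_erase hj)]
  rw [mul_assoc, h1]
  exact prod_mem_powId x κ _ i (by simp) _

theorem colon_pow {A : Type*} [CommRing A] {n : ℕ} {y : Fin n → A} (hy : RegSeq y) (t q : ℕ)
    (s : A) (hs : s * (∏ i, y i ^ t) ^ q ∈ powId y (fun _ => (t + 1) * q)) :
    s ∈ powId y (fun _ => q) := by
  have hP := fun (a : Fin n → ℕ) (i : Fin n) (T : Finset (Fin n)) (hi : i ∉ T) (c : ℕ) (s : A)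
    hs => reg_pow y hy a i T hi c s hs
  apply colon_prod y hP (fun _ => t * q) (fun _ => q) s
  have e1 : (∏ i, y i ^ t) ^ q = ∏ i, y i ^ (t * q) := by
    rw [← Finset.prod_pow]
    exact Finset.prod_congr rfl fun i _ => by rw [pow_mul]
  have e2 : (fun _ : Fin n => (t + 1) * q) = fun _ => t * q + q := by
    funext i
    ring
  rw [e1, e2] at hs
  exact hs

theorem pow_pair {A : Type*} [CommRing A] [IsLocalRing A] {n : ℕ} {y : Fin n → A} {u : A}
    (hy : RegSeq y) (h : Pair A (Ideal.span (Set.range y)) u) (t : ℕ) :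
    Pair A (powId y (fun _ => t + 1)) (u * ∏ i, y i ^ t) := by
  classical
  have hP := fun (a : Fin n → ℕ) (i : Fin n) (T : Finset (Fin n)) (hi : i ∉ T) (c : ℕ) (s : A)
    hs => reg_pow y hy a i T hi c s hs
  refine ⟨?_, ?_, ?_⟩
  · have hfg : (Ideal.span (Set.range y)).FG := ⟨Finset.univ.image y, by simp⟩
    have hrad : Ideal.span (Set.range y) ≤ (powId y (fun _ => t + 1)).radical := by
      rw [Ideal.span_le]
      rintro _ ⟨i, rfl⟩
      exact ⟨t + 1, Ideal.subset_span ⟨i, rfl⟩⟩
    obtain ⟨M, hM⟩ := Ideal.exists_pow_le_of_le_radical_of_fg hrad hfg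
    obtain ⟨c, hc⟩ := h.prim
    refine ⟨c * M, ?_⟩
    rw [pow_mul]
    exact (Ideal.pow_right_mono hc M).trans hM
  · intro hv
    have h1 := colon_prod y hP (fun _ => t) (fun _ => 1) u hv
    apply h.nmem
    simpa [powId] using h1
  · intro r hr'
    set κ : Fin n → ℕ := fun _ => t with hκ
    set q := powId y (fun i => κ i + 1) with hq
    -- a maximal monomial
    let F : Finset (Fin n → ℕ) :=
      (Fintype.piFinset fun i => Finset.range (κ i + 1)).filter fun β => r * ∏ j, y j ^ β j ∉ q
    have hF : F.Nonempty := by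
      refine ⟨fun _ => 0, ?_⟩
      rw [Finset.mem_filter]
      exact ⟨by simp, by simpa using hr'⟩
    obtain ⟨β, hβ, hβm⟩ := Finset.exists_max_image F (fun β => ∑ i, β i) hF
    rw [Finset.mem_filter, Fintype.mem_piFinset] at hβ
    obtain ⟨hβ1, hβ2⟩ := hβ
    have hxi : ∀ i, y i * (r * ∏ j, y j ^ β j) ∈ q := by
      intro i
      by_contra hcon
      have h1 : y i * (r * ∏ j, y j ^ β j) = r * ∏ j, y j ^ (Function.update β i (β i + 1)) j := by
        rw [← Finset.mul_prod_erase Finset.univ (fun j => y j ^ β j) (Finset.mem_univ i),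
          ← Finset.mul_prod_erase Finset.univ (fun j => y j ^ (Function.update β i (β i + 1)) j)
            (Finset.mem_univ i), Function.update_self, pow_succ']
        have : ∏ j ∈ Finset.univ.erase i, y j ^ (Function.update β i (β i + 1)) j =
            ∏ j ∈ Finset.univ.erase i, y j ^ β j := by
          refine Finset.prod_congr rfl fun j hj => ?_
          rw [Function.update_of_ne (Finset.ne_of_mem_erase hj)]
        rw [this]
        ring
      rw [h1] at hcon
      have h2 : Function.update β i (β i + 1) ∈ F := by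
        rw [Finset.mem_filter, Fintype.mem_piFinset]
        refine ⟨fun j => ?_, hcon⟩
        rw [Finset.mem_range]
        by_cases hj : j = i
        · subst hj
          by_contra hlt
          exact hcon (prod_mem_powId y κ _ j (by rw [Function.update_self] at hlt ⊢; omega) r)
        · rw [Function.update_of_ne hj]
          exact Finset.mem_range.1 (hβ1 j)
      have h3 := hβm _ h2
      have h4 : ∑ j, (Function.update β i (β i + 1)) j = (∑ j, β j) + 1 := by
        rw [← Finset.add_sum_erase Finset.univ (fun j => (Function.update β i (β i + 1)) j)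
          (Finset.mem_univ i), ← Finset.add_sum_erase Finset.univ β (Finset.mem_univ i),
          Function.update_self]
        have : ∑ j ∈ Finset.univ.erase i, (Function.update β i (β i + 1)) j =
            ∑ j ∈ Finset.univ.erase i, β j := by
          refine Finset.sum_congr rfl fun j hj => ?_
          rw [Function.update_of_ne (Finset.ne_of_mem_erase hj)]
        rw [this]
        ring
      omega
    obtain ⟨w, hw⟩ := colon_max y hP κ _ hxi
    have hwn : w ∉ Ideal.span (Set.range y) := by
      intro hcon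
      have h1 := q.add_mem hw (span_mul_mem y κ hcon)
      rw [sub_add_cancel] at h1
      exact hβ2 h1
    obtain ⟨b, hb⟩ := h.soc w hwn
    refine ⟨b * ∏ j, y j ^ β j, ?_⟩
    have h1 := q.add_mem (q.mul_mem_left b hw) (span_mul_mem y κ hb)
    have h2 : b * (r * ∏ j, y j ^ β j - w * ∏ i, y i ^ κ i) + (b * w - u) * ∏ j, y j ^ κ j =
        b * (∏ j, y j ^ β j) * r - u * ∏ i, y i ^ κ i := by ring
    rw [h2] at h1
    exact h1

end Pool.Agent.FSig.SA
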