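import Pool.Agent.Work.MP_27623f_ag.SA.DA
import Pool.Agent.Work.MP_27623f_ag.SA.PowP
import Pool.Agent.Work.MP_27623f_ag.Frob

/-!
MODULE GorT (size M).  From `R` to a Gorenstein local ring of which `R` is a retract.

PROOF.  `q = p^e`, `𝔞 = I' A`, `x = φ w'`.  `x ∉ 𝔞`: `ε` maps `𝔞` into `I'` and `x` to `w' ∉ I'`.  By Krull
(`A/𝔞` is Noetherian local) there is `t` with `x ∉ 𝔞 + m_A^(t+1)`, hence `x ∉ 𝔞 + 𝔟`, `𝔟 = (y_i^(t+1))`
(`y_i ∈ m_A` since `(y)` is a proper ideal).  `Pair A 𝔟 v`, `v = u ∏ y_i^t` (`pow_pair`).  By `exists_mul_socle` there is `c`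
with `c 𝔞 ⊆ 𝔟` and `c x - v ∈ 𝔟`.  `φ r x^q ∈ 𝔞^[q]`, so `φ r (c x)^q ∈ 𝔟^[q]`, and `v^q = (c x)^q - (c x - v)^q`, so
`φ r v^q ∈ 𝔟^[q] = (y_i^((t+1) q))` (`frobPow_eq_map`, `Ideal.map_span`).  `colon_pow` with `s = φ r u^q`:
`φ r u^q ∈ (y_i^q) = (y)^[q]`.
-/

set_option autoImplicit false

namespace Pool.Agent.FSig.SA

universe u v

private theorem gort_frob {A : Type*} [CommRing A] (p e : ℕ) [ExpChar A p] {n : ℕ} (y : Fin n → A)
    (m : ℕ) : frobPow (powId y (fun _ => m)) (p ^ e) = powId y (fun _ => m * p ^ e) := by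
  rw [frobPow_eq_map]
  unfold powId
  rw [Ideal.map_span, ← Set.range_comp]
  congr 1
  congr 1
  funext i
  simp only [Function.comp_apply, iterateFrobenius_def]
  rw [← pow_mul]

private theorem gort_powId_one {A : Type*} [CommRing A] {n : ℕ} (y : Fin n → A) :
    powId y (fun _ => 1) = Ideal.span (Set.range y) := by
  unfold powId
  simp

private theorem gort_colon {A : Type*} [CommRing A] {a b : Ideal A} {c : A} (q : ℕ)
    (h : ∀ y ∈ a, c * y ∈ b) {z : A} (hz : z ∈ frobPow a q) : z * c ^ q ∈ frobPow b q := by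
  unfold frobPow at hz
  refine Submodule.span_induction (p := fun z _ => z * c ^ q ∈ frobPow b q) ?_ ?_ ?_ ?_ hz
  · rintro _ ⟨w, hw, rfl⟩
    show w ^ q * c ^ q ∈ frobPow b q
    rw [← mul_pow, mul_comm]
    exact pow_mem_frobPow q (h w hw)
  · rw [zero_mul]
    exact Ideal.zero_mem _
  · intro z z' _ _ h1 h2
    rw [add_mul]
    exact Ideal.add_mem _ h1 h2
  · intro r z _ h1
    rw [smul_eq_mul, mul_assoc]
    exact Ideal.mul_mem_left _ _ h1

private theorem gort_krull {A : Type*} [CommRing A] [IsNoetherianRing A] [IsLocalRing A]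
    (a : Ideal A) {x : A} (hx : x ∉ a) :
    ∃ t, x ∉ a ⊔ IsLocalRing.maximalIdeal A ^ (t + 1) := by
  by_contra hcon
  push Not at hcon
  have ha : a ≠ ⊤ := by
    rintro rfl
    exact hx trivial
  have hnt : Nontrivial (A ⧸ a) := Ideal.Quotient.nontrivial_iff.mpr ha
  have hloc : IsLocalRing (A ⧸ a) :=
    IsLocalRing.of_surjective' (Ideal.Quotient.mk a) Ideal.Quotient.mk_surjective
  have ham : a ≤ IsLocalRing.maximalIdeal A := IsLocalRing.le_maximalIdeal ha
  have hmap : (IsLocalRing.maximalIdeal A).map (Ideal.Quotient.mk a) ≤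
      IsLocalRing.maximalIdeal (A ⧸ a) := by
    rw [Ideal.map_le_iff_le_comap]
    intro b hb
    rw [Ideal.mem_comap, IsLocalRing.mem_maximalIdeal, mem_nonunits_iff]
    intro hu
    obtain ⟨c', hc'⟩ := hu.exists_right_inv
    obtain ⟨c, rfl⟩ := Ideal.Quotient.mk_surjective c'
    rw [← map_mul, ← map_one (Ideal.Quotient.mk a), Ideal.Quotient.eq] at hc'
    have h1 : b * c - 1 ∈ IsLocalRing.maximalIdeal A := ham hc'
    have h2 : b * c ∈ IsLocalRing.maximalIdeal A := Ideal.mul_mem_right _ _ hb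
    have h3 : (1 : A) ∈ IsLocalRing.maximalIdeal A := by
      have := Ideal.sub_mem _ h2 h1
      simpa using this
    exact (Ideal.ne_top_iff_one _).1 (IsLocalRing.maximalIdeal.isMaximal A).ne_top h3
  have hall : Ideal.Quotient.mk a x ∈ (⨅ i : ℕ, IsLocalRing.maximalIdeal (A ⧸ a) ^ i) := by
    rw [Ideal.mem_iInf]
    intro i
    rcases i with _ | t
    · rw [pow_zero, Ideal.one_eq_top]
      trivial
    · have h1 := Ideal.mem_map_of_mem (Ideal.Quotient.mk a) (hcon t)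
      rw [Ideal.map_sup, Ideal.map_quotient_self, bot_sup_eq, Ideal.map_pow] at h1
      exact Ideal.pow_right_mono hmap _ h1
  rw [Ideal.iInf_pow_eq_bot_of_isLocalRing _ (IsLocalRing.maximalIdeal.isMaximal _).ne_top,
    Ideal.mem_bot, Ideal.Quotient.eq_zero_iff_mem] at hall
  exact hx hall

theorem transfer {R : Type v} {A : Type u} [CommRing R] [IsLocalRing R] [CommRing A]
    [IsNoetherianRing A] [IsLocalRing A] (p e : ℕ) [Fact p.Prime] [CharP A p] (φ : R →+* A)
    (ε : A →+* R) (hε : ∀ r, ε (φ r) = r) {n : ℕ} {y : Fin n → A} {u : A} (hy : RegSeq y)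
    (h : Pair A (Ideal.span (Set.range y)) u) {I' : Ideal R} {w' : R} (h' : Pair R I' w')
    (r : R) (hr : r * w' ^ p ^ e ∈ frobPow I' (p ^ e)) :
    φ r * u ^ p ^ e ∈ frobPow (Ideal.span (Set.range y)) (p ^ e) := by
  haveI : ExpChar A p := ExpChar.prime Fact.out
  have hx : φ w' ∉ I'.map φ := by
    intro hx
    have h1 : I'.map φ ≤ I'.comap ε := by
      rw [Ideal.map_le_iff_le_comap]
      intro a ha
      rw [Ideal.mem_comap, Ideal.mem_comap, hε]
      exact ha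
    have h2 := h1 hx
    rw [Ideal.mem_comap, hε] at h2
    exact h'.nmem h2
  obtain ⟨t, ht⟩ := gort_krull (I'.map φ) hx
  have hym : Ideal.span (Set.range y) ≤ IsLocalRing.maximalIdeal A := by
    apply IsLocalRing.le_maximalIdeal
    intro htop
    apply h.nmem
    rw [htop]
    trivial
  have hbm : powId y (fun _ => t + 1) ≤ IsLocalRing.maximalIdeal A ^ (t + 1) := by
    unfold powId
    rw [Ideal.span_le]
    rintro _ ⟨i, rfl⟩
    exact Ideal.pow_mem_pow (hym (Ideal.subset_span ⟨i, rfl⟩)) _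
  have hx' : φ w' ∉ I'.map φ ⊔ powId y (fun _ => t + 1) :=
    fun hc => ht (sup_le_sup_left hbm _ hc)
  obtain ⟨c, hc1, hc2⟩ := exists_mul_socle (pow_pair hy h t) (I'.map φ) (φ w') hx'
  have h1 : φ r * φ w' ^ p ^ e ∈ frobPow (I'.map φ) (p ^ e) := by
    have h2 : (frobPow I' (p ^ e)).map φ ≤ frobPow (I'.map φ) (p ^ e) := by
      rw [Ideal.map_le_iff_le_comap]
      unfold frobPow
      rw [Ideal.span_le]
      rintro _ ⟨a, ha, rfl⟩
      have h4 : φ (a ^ p ^ e) ∈ frobPow (I'.map φ) (p ^ e) := by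
        rw [map_pow]
        exact pow_mem_frobPow _ (Ideal.mem_map_of_mem φ ha)
      exact h4
    have h3 := h2 (Ideal.mem_map_of_mem φ hr)
    rwa [map_mul, map_pow] at h3
  have h2 := gort_colon (p ^ e) hc1 h1
  have h3 : φ r * (c * φ w' - u * ∏ i, y i ^ t) ^ p ^ e ∈
      frobPow (powId y (fun _ => t + 1)) (p ^ e) :=
    Ideal.mul_mem_left _ _ (pow_mem_frobPow _ hc2)
  have h4 := Ideal.sub_mem _ h2 h3
  rw [gort_frob] at h4
  have h5 : φ r * u ^ p ^ e * (∏ i, y i ^ t) ^ p ^ e ∈ powId y (fun _ => (t + 1) * p ^ e) := by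
    have e1 : φ r * φ w' ^ p ^ e * c ^ p ^ e - φ r * (c * φ w' - u * ∏ i, y i ^ t) ^ p ^ e =
        φ r * u ^ p ^ e * (∏ i, y i ^ t) ^ p ^ e := by
      rw [sub_pow_expChar_pow, mul_pow, mul_pow]
      ring
    rw [← e1]
    exact h4
  have h6 := colon_pow hy t (p ^ e) _ h5
  rw [← gort_powId_one, gort_frob, one_mul]
  exact h6

end Pool.Agent.FSig.SA
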