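import Pool.Agent.Work.MP_27623f_ag.SA.GorT
import Pool.Agent.Work.MP_27623f_ag.SA.Contr

/-!
MODULE StA (size M).  First half: from `R` to the symbolic algebra.

PROOF.  `S = symAlg J` is Noetherian (finite type over `R`), of characteristic `p`, `n = origin J` is maximal (`constTerm J` is
onto: it is the identity on `R`), `A = S_n`; `CharP A p` (`p = 0` in `A`, nontrivial).  `φ : R → S → A`,
`ε : A → R` the lift of `constTerm J` (elements outside of `origin J` have unit constant term), `ε ∘ φ = id`.  Gorenstein
data `y, u` of `A`; `s u = algebraMap u₀` with `s` a unit of `A`, `u₀ ∈ S` (`IsLocalization.mk'_surjective`).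
`𝔮 = (y) ∩ S`; `u₀ ∉ 𝔮`; `(origin J)^M ≤ 𝔮`.  `transfer` and `contract` with `x = r u₀^q`:
`algebraMap x = s^q (φ r u^q) ∈ (y)^[q]`.
-/

set_option autoImplicit false

namespace Pool.Agent.FSig.SA

theorem stageA {R K : Type*} [CommRing R] [IsDomain R] [IsNoetherianRing R] [IsLocalRing R]
    [Field K] [Algebra R K] [IsFractionRing R K] (p : ℕ) [Fact p.Prime] [CharP R p]
    (J : Submodule R K) (hfg : (symAlg J).FG)
    (hG : Gorenstein (Localization.AtPrime (origin J))) :
    ∃ (q : Ideal (symAlg J)) (u : symAlg J), (∃ M, origin J ^ M ≤ q) ∧ u ∉ q ∧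
      ∀ (I' : Ideal R) (w' : R), Pair R I' w' → ∀ (e : ℕ) (r : R),
        r * w' ^ p ^ e ∈ frobPow I' (p ^ e) →
          algebraMap R (symAlg J) r * u ^ p ^ e ∈ frobPow q (p ^ e) := by
  have hp : p.Prime := Fact.out
  have hct : ∀ r : R, constTerm J (algebraMap R (symAlg J) r) = r := by
    intro r
    apply FaithfulSMul.algebraMap_injective R K
    rw [algebraMap_constTerm]
    have h1 : ((algebraMap R (symAlg J) r : symAlg J) : Polynomial K) =
        algebraMap R (Polynomial K) r := rfl
    rw [h1, Polynomial.algebraMap_apply, Polynomial.coeff_C_zero]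
  have hsurj : Function.Surjective (constTerm J) := fun r => ⟨_, hct r⟩
  have hinj : Function.Injective (algebraMap R (symAlg J)) := by
    intro a b hab
    rw [← hct a, ← hct b, hab]
  have hft : Algebra.FiniteType R (symAlg J) := (Subalgebra.fg_iff_finiteType _).1 hfg
  have hN : IsNoetherianRing (symAlg J) := Algebra.FiniteType.isNoetherianRing R (symAlg J)
  have hcS : CharP (symAlg J) p := charP_of_injective_algebraMap hinj p
  have hmax : (origin J).IsMaximal := Ideal.comap_isMaximal_of_surjective _ hsurj
  have hNA : IsNoetherianRing (Localization.AtPrime (origin J)) :=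
    IsLocalization.isNoetherianRing (origin J).primeCompl _ hN
  have hcA : CharP (Localization.AtPrime (origin J)) p := by
    rw [CharP.charP_iff_prime_eq_zero hp]
    have h1 : ((p : ℕ) : symAlg J) = 0 := CharP.cast_eq_zero _ p
    have h2 := congrArg (algebraMap (symAlg J) (Localization.AtPrime (origin J))) h1
    rwa [map_natCast, map_zero] at h2
  set φ : R →+* Localization.AtPrime (origin J) :=
    (algebraMap (symAlg J) (Localization.AtPrime (origin J))).comp (algebraMap R (symAlg J)) with hφ
  have hunit : ∀ y : (origin J).primeCompl, IsUnit (constTerm J (y : symAlg J)) := by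
    intro y
    have h1 : (y : symAlg J) ∉ origin J := y.2
    have h2 : constTerm J (y : symAlg J) ∉ IsLocalRing.maximalIdeal R := h1
    exact IsLocalRing.notMem_maximalIdeal.1 h2
  let ε : Localization.AtPrime (origin J) →+* R := IsLocalization.lift hunit
  have hε : ∀ r, ε (φ r) = r := by
    intro r
    show ε (algebraMap (symAlg J) (Localization.AtPrime (origin J)) (algebraMap R (symAlg J) r)) = r
    rw [IsLocalization.lift_eq hunit, hct]
  obtain ⟨n, y, u, hreg, hpair⟩ := hG
  obtain ⟨⟨u₀, t⟩, ht⟩ := IsLocalization.surj (origin J).primeCompl u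
  have hs : IsUnit (algebraMap (symAlg J) (Localization.AtPrime (origin J)) t) :=
    IsLocalization.map_units _ t
  have ht' : u * algebraMap (symAlg J) (Localization.AtPrime (origin J)) t =
      algebraMap (symAlg J) (Localization.AtPrime (origin J)) u₀ := ht
  refine ⟨(Ideal.span (Set.range y)).comap
    (algebraMap (symAlg J) (Localization.AtPrime (origin J))), u₀, ?_, ?_, ?_⟩
  · obtain ⟨c, hc⟩ := hpair.prim
    refine ⟨c, ?_⟩
    rw [← Ideal.map_le_iff_le_comap, Ideal.map_pow]
    refine le_trans ?_ hc
    apply Ideal.pow_right_mono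
    rw [Localization.AtPrime.map_eq_maximalIdeal]
  · intro hu
    rw [Ideal.mem_comap, ← ht'] at hu
    apply hpair.nmem
    exact (Ideal.mul_unit_mem_iff_mem _ hs).1 hu
  · intro I' w' hI' e r hr
    have h1 := transfer p e φ ε hε hreg hpair hI' r hr
    apply contract p e (origin J) hmax _ hpair.prim
    have h2 : algebraMap (symAlg J) (Localization.AtPrime (origin J))
        (algebraMap R (symAlg J) r * u₀ ^ p ^ e) =
        (algebraMap (symAlg J) (Localization.AtPrime (origin J)) t) ^ p ^ e *
          (φ r * u ^ p ^ e) := by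
      rw [map_mul, map_pow, ← ht', mul_pow, hφ]
      simp only [RingHom.comp_apply]
      ring
    rw [h2]
    exact Ideal.mul_mem_left _ _ h1

end Pool.Agent.FSig.SA
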