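import Pool.Agent.Work.MP_27623f_ag.SA.Defs

/-!
MODULE Sys (size M).  The family `n ↦ J^(n)` has the properties `DivSys`.

PROOF.  `J ^ n` is the power of a submodule of the algebra `K`.
`zero`: `symPow_zero`.
`mul`: nonnegative, nonnegative: `symPow_mul`.  For `i, j ≥ 0`, `x ∈ (J^i)**`, `y ∈ (J^j)*`:
if `i ≥ j` then `x y ∈ (J^(i-j))**`: for `z ∈ (J^(i-j))*` one has `y z ∈ (J^i)*` (write `J^i = J^(i-j) J^j`,
`Submodule.mul_induction_on`), so `x (y z) ∈ R`; if `i < j` then `x y ∈ (J^(j-i))*`: for `z ∈ J^(j-i)` one has `y z ∈ (J^i)*`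
(`z J^i ⊆ J^j`), so `x (y z) ∈ R`.  `(J^i)* (J^j)* ⊆ (J^(i+j))*`.  (`mul` is symmetric; it is convenient to prove first
`x ∈ symZ J i ↔ ...` in the two cases `i = n` and `i = -n`, where `symZ J (-n) = dual (J^n)` also for `n = 0` by `dual_one`.)
`fg`: for `0 ≠ x ∈ M` multiplication by `x` embeds `M*` into `1 ≅ R`, which is Noetherian; so `M*` is finitely generated when
`M ≠ 0`; `J^n ≠ 0` and `(J^n)* ≠ 0`.
`ne`: `J^n` is finitely generated (`Submodule.FG.pow`), so there is a common denominator `d ≠ 0`, `d J^n ⊆ R`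
(`IsLocalization.exist_integer_multiples_of_finset`), `d ∈ (J^n)*`; `J^n ≤ (J^n)**` (`le_dual_dual`).
`dual`: `dual_dual_dual`.
-/

set_option autoImplicit false

namespace Pool.Agent.FSig.SA

private theorem symZ_neg {R K : Type*} [CommRing R] [Field K] [Algebra R K]
    (J : Submodule R K) (n : ℕ) : symZ J (-(n : ℤ)) = dual (J ^ n) := by
  cases n with
  | zero =>
    have h : symZ J (-((0 : ℕ) : ℤ)) = symPow J 0 := rfl
    rw [h, symPow_zero, pow_zero, dual_one]
  | succ m => rfl

private theorem symZ_nat {R K : Type*} [CommRing R] [Field K] [Algebra R K]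
    (J : Submodule R K) (n : ℕ) : symZ J (n : ℤ) = symPow J n := rfl

private theorem dual_mul_dual {R K : Type*} [CommRing R] [Field K] [Algebra R K]
    {A B : Submodule R K} {x y : K} (hx : x ∈ dual A) (hy : y ∈ dual B) :
    x * y ∈ dual (A * B) := by
  intro z hz
  refine Submodule.mul_induction_on hz ?_ ?_
  · intro a ha b hb
    have h1 := Submodule.mul_mem_mul (hx a ha) (hy b hb)
    rw [one_mul] at h1
    have h2 : x * y * (a * b) = x * a * (y * b) := by ring
    rw [h2]
    exact h1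
  · intro a b ha hb
    rw [mul_add]
    exact Submodule.add_mem _ ha hb

private theorem mul_case {R K : Type*} [CommRing R] [Field K] [Algebra R K]
    (J : Submodule R K) (a b : ℕ) {x y : K} (hx : x ∈ symPow J a) (hy : y ∈ dual (J ^ b)) :
    x * y ∈ symZ J ((a : ℤ) + -(b : ℤ)) := by
  rcases le_total b a with h | h
  · have e : (a : ℤ) + -(b : ℤ) = ((a - b : ℕ) : ℤ) := by
      rw [Nat.cast_sub h]; ring
    rw [e, symZ_nat]
    intro z hz
    have h1 : y * z ∈ dual (J ^ a) := by
      have h2 := dual_mul_dual hy hz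
      rwa [← pow_add, Nat.add_sub_cancel' h] at h2
    have h3 := hx (y * z) h1
    rwa [← mul_assoc] at h3
  · have e : (a : ℤ) + -(b : ℤ) = -((b - a : ℕ) : ℤ) := by
      rw [Nat.cast_sub h]; ring
    rw [e, symZ_neg]
    intro z hz
    have h1 : y * z ∈ dual (J ^ a) := by
      intro w hw
      have h2 : z * w ∈ J ^ b := by
        have h3 := Submodule.mul_mem_mul hz hw
        rwa [← pow_add, Nat.sub_add_cancel h] at h3
      have h4 := hy (z * w) h2
      rwa [← mul_assoc] at h4
    have h3 := hx (y * z) h1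
    rwa [← mul_assoc] at h3

private theorem fg_dual {R K : Type*} [CommRing R] [IsNoetherianRing R] [Field K]
    [Algebra R K] (M : Submodule R K) {x : K} (hx : x ∈ M) (h0 : x ≠ 0) : (dual M).FG := by
  have hinj : Function.Injective (LinearMap.mulRight R x) := by
    intro a b hab
    simp only [LinearMap.mulRight_apply] at hab
    exact mul_right_cancel₀ h0 hab
  refine Submodule.fg_of_fg_map_injective (LinearMap.mulRight R x) hinj ?_
  have hle : (dual M).map (LinearMap.mulRight R x) ≤ 1 := by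
    rintro _ ⟨y, hy, rfl⟩
    exact hy x hx
  have h1 : (1 : Submodule R K).FG := by
    rw [Submodule.one_eq_span]
    exact Submodule.fg_span_singleton 1
  exact h1.of_le hle

theorem divSys_symZ {R K : Type*} [CommRing R] [IsDomain R] [IsNoetherianRing R] [Field K]
    [Algebra R K] [IsFractionRing R K] (J : Submodule R K) (hfg : J.FG) (h0 : J ≠ ⊥) :
    DivSys R K (symZ J) := by
  obtain ⟨x₀, hx₀, hx0⟩ := Submodule.exists_mem_ne_zero_of_ne_bot h0
  have hpow : ∀ n : ℕ, ∃ x ∈ J ^ n, x ≠ 0 := fun n =>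
    ⟨x₀ ^ n, Submodule.pow_mem_pow J hx₀ n, pow_ne_zero n hx0⟩
  have hdual : ∀ n : ℕ, ∃ x ∈ dual (J ^ n), x ≠ 0 := by
    intro n
    obtain ⟨s, hs⟩ := Submodule.FG.pow hfg n
    obtain ⟨b, hb⟩ := IsLocalization.exist_integer_multiples_of_finset (nonZeroDivisors R) s
    refine ⟨algebraMap R K b, ?_, ?_⟩
    · intro z hz
      rw [← hs] at hz
      refine Submodule.span_induction ?_ ?_ ?_ ?_ hz
      · intro y hy
        obtain ⟨r, hr⟩ := hb y hy
        refine Submodule.mem_one.2 ⟨r, ?_⟩
        rw [hr, Algebra.smul_def]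
      · rw [mul_zero]; exact Submodule.zero_mem _
      · intro y z _ _ hy hz
        rw [mul_add]; exact Submodule.add_mem _ hy hz
      · intro r y _ hy
        rw [mul_smul_comm]
        exact Submodule.smul_mem _ r hy
    · have hb0 : (b : R) ≠ 0 := nonZeroDivisors.ne_zero b.2
      intro h
      exact hb0 ((FaithfulSMul.algebraMap_eq_zero_iff R K).1 h)
  refine ⟨?_, ?_, ?_, ?_, ?_⟩
  · exact symPow_zero J
  · intro i j x hx y hy
    rcases Int.eq_nat_or_neg i with ⟨a, rfl | rfl⟩ <;> rcases Int.eq_nat_or_neg j with ⟨b, rfl | rfl⟩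
    · rw [symZ_nat] at hx hy
      have e : (a : ℤ) + (b : ℤ) = ((a + b : ℕ) : ℤ) := by push_cast; ring
      rw [e, symZ_nat]
      exact symPow_mul J hx hy
    · rw [symZ_nat] at hx
      rw [symZ_neg] at hy
      exact mul_case J a b hx hy
    · rw [symZ_neg] at hx
      rw [symZ_nat] at hy
      rw [mul_comm, add_comm]
      exact mul_case J b a hy hx
    · rw [symZ_neg] at hx hy
      have e : -(a : ℤ) + -(b : ℤ) = -((a + b : ℕ) : ℤ) := by push_cast; ring
      rw [e, symZ_neg, pow_add]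
      exact dual_mul_dual hx hy
  · intro n
    rcases Int.eq_nat_or_neg n with ⟨a, rfl | rfl⟩
    · obtain ⟨x, hx, hx'⟩ := hdual a
      exact fg_dual _ hx hx'
    · rw [symZ_neg]
      obtain ⟨x, hx, hx'⟩ := hpow a
      exact fg_dual _ hx hx'
  · intro n
    rcases Int.eq_nat_or_neg n with ⟨a, rfl | rfl⟩
    · obtain ⟨x, hx, hx'⟩ := hpow a
      exact ⟨x, le_dual_dual _ hx, hx'⟩
    · rw [symZ_neg]
      exact hdual a
  · intro n x hx
    rcases Int.eq_nat_or_neg n with ⟨a, rfl | rfl⟩
    · rw [symZ_neg, ← dual_dual_dual]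
      exact hx
    · rw [neg_neg, symZ_nat]
      rw [symZ_neg] at hx
      exact hx

end Pool.Agent.FSig.SA
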